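import Mathlib
import Pool.Agent.Helper184.Chapman

set_option autoImplicit false

namespace Pool.Agent.Q267.ChapU

open Finset Polynomial Matrix
open Pool.Agent.Helper184.Chapman

/-! ### Linear algebra: bordering a skew matrix -/

section border

variable {K : Type*} [Field K] {N : ℕ}

/-- the vector `(1, …, 1, 0)` -/
def ones (K : Type*) [Field K] (N : ℕ) : Fin (N + 1) → K := fun i => if i = Fin.last N then 0 else 1

lemma skew_self {n : ℕ} (h2 : (2 : K) ≠ 0) (B : Matrix (Fin n) (Fin n) K) (hB : Bᵀ = -B)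
    (u : Fin n → K) : u ⬝ᵥ (B *ᵥ u) = 0 := by
  have h1 : u ⬝ᵥ (B *ᵥ u) = - (u ⬝ᵥ (B *ᵥ u)) := by
    conv_lhs => rw [dotProduct_mulVec, ← mulVec_transpose, hB, neg_mulVec, neg_dotProduct,
      dotProduct_comm]
  have h3 : 2 * (u ⬝ᵥ (B *ᵥ u)) = 0 := by linear_combination h1
  exact (mul_eq_zero.1 h3).resolve_left h2

lemma skew_two {n : ℕ} (B : Matrix (Fin n) (Fin n) K) (hB : Bᵀ = -B)
    (u w : Fin n → K) : u ⬝ᵥ (B *ᵥ w) = - (w ⬝ᵥ (B *ᵥ u)) := by
  rw [dotProduct_mulVec, ← mulVec_transpose, hB, neg_mulVec, neg_dotProduct, dotProduct_comm]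

theorem border (h2 : (2 : K) ≠ 0) (B : Matrix (Fin (N + 1)) (Fin (N + 1)) K) (hB : Bᵀ = -B)
    (hdet : B.det = 1) (v : Fin (N + 1) → K) (hv : B *ᵥ v = Pi.single (Fin.last N) 1) (r : K) :
    ((B.submatrix Fin.castSucc Fin.castSucc) + Matrix.of (fun _ _ => r)).det
      = r * (∑ j : Fin N, v j.castSucc) ^ 2 := by
  have hunit : IsUnit B.det := by rw [hdet]; exact isUnit_one
  set e := ones K N with he
  set w : Fin (N + 1) → K := B⁻¹ *ᵥ e with hw
  have hBw : B *ᵥ w = e := by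
    rw [hw, Matrix.mulVec_mulVec, Matrix.mul_nonsing_inv _ hunit, Matrix.one_mulVec]
  have hwe : w ⬝ᵥ e = 0 := by rw [← hBw]; exact skew_self h2 B hB w
  have hvl : v (Fin.last N) = 0 := by
    have := skew_self h2 B hB v
    rw [hv, dotProduct_single, mul_one] at this
    exact this
  set β : K := v ⬝ᵥ e with hβ
  have hwl : w (Fin.last N) = -β := by
    have := skew_two B hB w v
    rw [hv, dotProduct_single, mul_one, hBw] at this
    exact this
  have hβsum : β = ∑ j : Fin N, v j.castSucc := by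
    rw [hβ, dotProduct, Fin.sum_univ_castSucc]
    simp [he, ones, Fin.castSucc_ne_last]
  set Br : Matrix (Fin (N + 1)) (Fin (N + 1)) K := B + r • vecMulVec e e with hBr
  have hdetBr : Br.det = 1 := by
    have h1 : Br = B + replicateCol Unit (r • e) * replicateRow Unit e := by
      rw [hBr]
      congr 1
      ext i j
      simp [vecMulVec_apply, Matrix.mul_apply]
      ring
    rw [h1, det_add_replicateCol_mul_replicateRow hunit, hdet, one_mul, det_unique]
    have h3 : (replicateRow Unit e * B⁻¹ * replicateCol Unit (r • e)) default default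
        = r * (e ⬝ᵥ w) := by
      rw [Matrix.mul_assoc]
      simp [Matrix.mul_apply, hw, mulVec, dotProduct, mul_sum]
      refine sum_congr rfl (fun i _ => sum_congr rfl (fun j _ => by ring))
    rw [Matrix.add_apply, h3, dotProduct_comm, hwe]
    simp
  set y : Fin (N + 1) → K := v - (r * β) • w with hy
  have hBry : Br *ᵥ y = Pi.single (Fin.last N) 1 := by
    have h1 : (vecMulVec e e) *ᵥ y = (e ⬝ᵥ y) • e := by
      ext i
      simp [vecMulVec_apply, mulVec, dotProduct, sum_mul]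
      refine sum_congr rfl (fun j _ => by ring)
    have h3 : e ⬝ᵥ y = β := by
      rw [hy, dotProduct_sub, dotProduct_smul, dotProduct_comm e w, hwe, smul_zero, sub_zero,
        dotProduct_comm]
    rw [hBr, add_mulVec, smul_mulVec, h1, h3, hy, mulVec_sub, mulVec_smul, hv, hBw]
    rw [smul_smul]
    abel
  have hadj : Br.adjugate (Fin.last N) (Fin.last N) = y (Fin.last N) := by
    have h1 : Br.adjugate *ᵥ (Br *ᵥ y) = y := by
      rw [mulVec_mulVec, adjugate_mul, hdetBr, one_smul, one_mulVec]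
    rw [hBry] at h1
    have h3 := congrFun h1 (Fin.last N)
    rw [mulVec_single_one] at h3
    exact h3
  rw [adjugate_fin_succ_eq_det_submatrix] at hadj
  have hsub : Br.submatrix (Fin.last N).succAbove (Fin.last N).succAbove
      = (B.submatrix Fin.castSucc Fin.castSucc) + Matrix.of (fun _ _ => r) := by
    ext i j
    simp [hBr, vecMulVec_apply, he, ones, Fin.castSucc_ne_last]
  rw [hsub] at hadj
  have hsign : ((-1 : K)) ^ ((Fin.last N : Fin (N+1)) + (Fin.last N : Fin (N+1)) : ℕ) = 1 := by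
    rw [← two_mul, pow_mul]; simp
  rw [hsign, one_mul] at hadj
  rw [hadj, hy, Pi.sub_apply, Pi.smul_apply, hvl, hwl, ← hβsum, smul_eq_mul]
  ring

end border

/-! ### The Fourier transform of the Toeplitz system -/

section fourier

variable {p : ℕ} [Fact p.Prime] {K : Type*} [Field K]

lemma fourier (h3 : p % 4 = 3) (h2 : (2 : K) ≠ 0) (ψ : AddChar (ZMod p) K) (v : ℕ → K) (M : ℕ)
    (k : ZMod p) :
    ∑ i : ZMod p, (∑ j ∈ range M, chi p K (i - (j : ZMod p)) * v j) * ψ (2 * i * k)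
      = gaussSum (chi p K) ψ * chi p K 2 * chi p K k * ∑ j ∈ range M, v j * ψ (2 * j * k) := by
  simp only [sum_mul]
  rw [sum_comm, mul_sum]
  refine sum_congr rfl (fun j _ => ?_)
  have h4 : ∑ i : ZMod p, chi p K (i - (j : ZMod p)) * v j * ψ (2 * i * k)
      = ∑ l : ZMod p, chi p K l * v j * ψ (2 * (l + j) * k) := by
    apply Fintype.sum_equiv (Equiv.subRight (j : ZMod p))
    intro i
    simp
  rw [h4]
  have h5 := gauss_shift h3 h2 ψ (2 * k)
  rw [map_mul] at h5
  have h6 : ∀ l : ZMod p, chi p K l * v j * ψ (2 * (l + j) * k)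
      = v j * ψ (2 * j * k) * (chi p K l * ψ (2 * k * l)) := by
    intro l
    rw [show 2 * (l + (j : ZMod p)) * k = 2 * k * l + 2 * j * k by ring, AddChar.map_add_eq_mul]
    ring
  rw [sum_congr rfl (fun l _ => h6 l), ← mul_sum, h5]
  ring

/-- the even part of the transformed system -/
noncomputable def EE (p : ℕ) {K : Type*} [Field K] (N : ℕ) (S : ZMod p → K) : K[X] :=
  ∑ l ∈ range (p - N), C (S ((N + l : ℕ) : ZMod p)) * X ^ (2 * l)

/-- the odd part of the transformed system -/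
noncomputable def OO (p : ℕ) {K : Type*} [Field K] (N : ℕ) (c : K) (v : ℕ → K) : K[X] :=
  ∑ j ∈ range N, C (c * v j) * X ^ (2 * j + (p - 2 * N))

lemma sum_zmod {M : Type*} [AddCommMonoid M] (f : ZMod p → M) :
    ∑ i : ZMod p, f i = ∑ i ∈ range p, f (i : ZMod p) := by
  symm
  apply Finset.sum_bij (fun (i : ℕ) _ => (i : ZMod p))
  · intro a _; simp
  · intro a ha b hb hab
    rw [Finset.mem_range] at ha hb
    have := congrArg ZMod.val hab
    rwa [ZMod.val_natCast_of_lt ha, ZMod.val_natCast_of_lt hb] at this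
  · intro b _
    exact ⟨b.val, by simpa using ZMod.val_lt b, by simp⟩
  · intro a _; rfl

lemma psi_pow (ψ : AddChar (ZMod p) K) (k : ZMod p) (n : ℕ) : ψ k ^ n = ψ ((n : ZMod p) * k) := by
  rw [← AddChar.map_nsmul_eq_pow, nsmul_eq_mul]

lemma psi_pow_p (ψ : AddChar (ZMod p) K) (k : ZMod p) : ψ k ^ p = 1 := by
  rw [psi_pow, ZMod.natCast_self, zero_mul, AddChar.map_zero_eq_one]

lemma psi_ne (ψ : AddChar (ZMod p) K) (k : ZMod p) : ψ k ≠ 0 := by
  intro h
  have := psi_pow_p ψ k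
  rw [h, zero_pow (Fact.out : p.Prime).ne_zero] at this
  exact zero_ne_one this

lemma eval_rel (h3 : p % 4 = 3) (h2 : (2 : K) ≠ 0) (ψ : AddChar (ZMod p) K) (N : ℕ)
    (hN : 2 * N < p) (v : ℕ → K) (S : ZMod p → K)
    (hS : ∀ i, S i = ∑ j ∈ range N, chi p K (i - (j : ZMod p)) * v j)
    (h0 : ∀ i < N, S (i : ZMod p) = 0) (k : ZMod p) :
    (EE p N S).eval (ψ k)
      = chi p K k * (OO p N (gaussSum (chi p K) ψ * chi p K 2) v).eval (ψ k) := by
  have hf := fourier h3 h2 ψ v N k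
  simp only [← hS] at hf
  rw [sum_zmod] at hf
  have e1 : ∑ i ∈ range p, S (i : ZMod p) * ψ (2 * i * k)
      = ∑ l ∈ range (p - N), S ((N + l : ℕ) : ZMod p) * ψ k ^ (2 * (N + l)) := by
    have e0 : range p = range (N + (p - N)) := by congr 1; omega
    rw [e0, sum_range_add]
    have : ∑ i ∈ range N, S (i : ZMod p) * ψ (2 * i * k) = 0 :=
      sum_eq_zero (fun i hi => by rw [h0 i (mem_range.1 hi), zero_mul])
    rw [this, zero_add]
    refine sum_congr rfl (fun l _ => ?_)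
    rw [psi_pow]
    congr 2
    push_cast
    ring
  rw [e1] at hf
  have e2 : (EE p N S).eval (ψ k)
      = (∑ l ∈ range (p - N), S ((N + l : ℕ) : ZMod p) * ψ k ^ (2 * (N + l)))
        * ψ k ^ (p - 2 * N) := by
    rw [EE, eval_finsetSum, sum_mul]
    refine sum_congr rfl (fun l _ => ?_)
    rw [eval_mul, eval_C, eval_pow, eval_X, mul_assoc, ← pow_add,
      show 2 * (N + l) + (p - 2 * N) = 2 * l + p by omega, pow_add, psi_pow_p, mul_one]
  rw [e2, hf, OO, eval_finsetSum, mul_assoc, mul_assoc, mul_sum, sum_mul, mul_sum, mul_sum]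
  refine sum_congr rfl (fun j _ => ?_)
  rw [eval_mul, eval_C, eval_pow, eval_X, pow_add, psi_pow ψ k (2 * j)]
  push_cast
  ring

omit [Fact p.Prime] in
lemma EE_even (N : ℕ) (S : ZMod p → K) (x : K) : (EE p N S).eval (-x) = (EE p N S).eval x := by
  simp only [EE, eval_finsetSum, eval_mul, eval_C, eval_pow, eval_X]
  refine sum_congr rfl (fun l _ => ?_)
  rw [(even_two_mul l).neg_pow]

omit [Fact p.Prime] in
lemma OO_odd (hp : Odd p) (N : ℕ) (hN : 2 * N < p) (c : K) (v : ℕ → K) (x : K) :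
    (OO p N c v).eval (-x) = -(OO p N c v).eval x := by
  simp only [OO, eval_finsetSum, eval_mul, eval_C, eval_pow, eval_X]
  rw [← sum_neg_distrib]
  refine sum_congr rfl (fun l _ => ?_)
  have : Odd (2 * l + (p - 2 * N)) := by
    obtain ⟨q, hq⟩ := hp
    exact ⟨l + q - N, by omega⟩
  rw [this.neg_pow]; ring

/-- the roots -/
noncomputable def rho (ψ : AddChar (ZMod p) K) (k : ZMod p) : K := chi p K k * ψ k

lemma chi_pm {k : ZMod p} (hk : k ≠ 0) : chi p K k = 1 ∨ chi p K k = -1 := by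
  rcases chi_quad (K := K) k with h | h | h
  · exfalso
    have := chi_sq (K := K) hk
    rw [h] at this; simp at this
  · exact Or.inl h
  · exact Or.inr h

lemma rho_inj (hp : Odd p) (ψ : AddChar (ZMod p) K) (hψ : ψ.IsPrimitive) {k l : ZMod p}
    (hk : k ≠ 0) (hl : l ≠ 0) (h : rho ψ k = rho ψ l) : k = l := by
  have hpw : ∀ k : ZMod p, k ≠ 0 → rho ψ k ^ p = chi p K k := by
    intro k hk
    rw [rho, mul_pow, psi_pow_p, mul_one]
    rcases chi_pm (K := K) hk with h | h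
    · rw [h, one_pow]
    · rw [h, hp.neg_one_pow]
  have h1 : chi p K k = chi p K l := by rw [← hpw k hk, ← hpw l hl, h]
  have h4 : chi p K l ≠ 0 := by
    rcases chi_pm (K := K) hl with h | h <;> rw [h] <;> simp
  have h5 : ψ k = ψ l := by
    rw [rho, rho, h1] at h
    exact mul_left_cancel₀ h4 h
  have h6 : ψ (k - l) = 1 := by
    rw [AddChar.map_sub_eq_div, h5, div_self (psi_ne ψ l)]
  rw [hψ.zmod_char_eq_one_iff] at h6
  exact sub_eq_zero.1 h6

/-- the product over the roots -/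
noncomputable def PP (ψ : AddChar (ZMod p) K) : K[X] :=
  ∏ k : (ZMod p)ˣ, (X - C (rho ψ k))

lemma PP_dvd (h3 : p % 4 = 3) (h2 : (2 : K) ≠ 0) (ψ : AddChar (ZMod p) K) (hψ : ψ.IsPrimitive)
    (N : ℕ) (hN : 2 * N < p) (v : ℕ → K) (S : ZMod p → K)
    (hS : ∀ i, S i = ∑ j ∈ range N, chi p K (i - (j : ZMod p)) * v j)
    (h0 : ∀ i < N, S (i : ZMod p) = 0) :
    PP ψ ∣ EE p N S - OO p N (gaussSum (chi p K) ψ * chi p K 2) v := by
  have hp : Odd p := Nat.odd_iff.2 (by omega)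
  apply Finset.prod_dvd_of_coprime
  · intro k _ l _ hkl
    apply Polynomial.isCoprime_X_sub_C_of_isUnit_sub
    rw [isUnit_iff_ne_zero, sub_ne_zero]
    intro h
    exact hkl (Units.ext (rho_inj hp ψ hψ k.ne_zero l.ne_zero h))
  · intro k _
    rw [dvd_iff_isRoot, IsRoot, eval_sub]
    have h4 := eval_rel h3 h2 ψ N hN v S hS h0 k
    rcases chi_pm (K := K) k.ne_zero with h | h
    · rw [rho, h, one_mul, h4, h, one_mul, sub_self]
    · rw [rho, h, neg_one_mul, EE_even, OO_odd hp N hN, h4, h]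
      ring

lemma eval_one (h3 : p % 4 = 3) (h2 : (2 : K) ≠ 0) (ψ : AddChar (ZMod p) K)
    (N : ℕ) (hN : 2 * N < p) (v : ℕ → K) (S : ZMod p → K)
    (hS : ∀ i, S i = ∑ j ∈ range N, chi p K (i - (j : ZMod p)) * v j)
    (h0 : ∀ i < N, S (i : ZMod p) = 0) : (EE p N S).eval 1 = 0 := by
  have h4 := eval_rel h3 h2 ψ N hN v S hS h0 0
  rwa [AddChar.map_zero_eq_one, MulChar.map_zero, zero_mul] at h4

omit [Fact p.Prime] in
lemma OO_eval_one (N : ℕ) (c : K) (v : ℕ → K) :
    (OO p N c v).eval 1 = c * ∑ j ∈ range N, v j := by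
  simp [OO, eval_finsetSum, mul_sum]

lemma prod_units {M : Type*} [CommMonoid M] (f : ZMod p → M) :
    ∏ k ∈ univ.erase (0 : ZMod p), f k = ∏ u : (ZMod p)ˣ, f u := by
  symm
  apply Finset.prod_bij (fun (x : (ZMod p)ˣ) _ => (x : ZMod p))
  · intro a _; simp
  · intro a _ b _ hab; exact Units.ext hab
  · intro b hb
    exact ⟨Units.mk0 b (by simpa using hb), by simp, rfl⟩
  · intro a _; rfl

lemma sum_units (f : ZMod p → K) : ∑ u : (ZMod p)ˣ, f u = (∑ k : ZMod p, f k) - f 0 := by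
  rw [← Finset.add_sum_erase univ f (mem_univ 0), add_sub_cancel_left]
  symm
  apply Finset.sum_bij (fun (x : ZMod p) hx => Units.mk0 x (by simpa using hx))
  · intro a _; simp
  · intro a _ b _ hab; simpa using congrArg Units.val hab
  · intro b _
    exact ⟨b, by simp, by simp⟩
  · intro a _; rfl

lemma card_units' {m : ℕ} (hm : p = 2 * m + 1) : Fintype.card (ZMod p)ˣ = 2 * m := by
  rw [ZMod.card_units_eq_totient, Nat.totient_prime Fact.out]; omega

lemma PP_natDegree {m : ℕ} (hm : p = 2 * m + 1) (ψ : AddChar (ZMod p) K) :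
    (PP ψ).natDegree = 2 * m := by
  rw [PP, natDegree_prod_of_monic _ _ (fun _ _ => monic_X_sub_C _)]
  simp only [natDegree_X_sub_C, sum_const, card_univ, card_units' hm, smul_eq_mul, mul_one]

lemma PP_monic (ψ : AddChar (ZMod p) K) : (PP ψ).Monic :=
  monic_prod_of_monic _ _ (fun _ _ => monic_X_sub_C _)

lemma prod_rho (h3 : p % 4 = 3) (ψ : AddChar (ZMod p) K) : ∏ u : (ZMod p)ˣ, rho ψ u = -1 := by
  have hp2 : p ≠ 2 := by rintro rfl; omega
  rw [← prod_units (fun k => rho ψ k)]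
  simp only [rho]
  rw [prod_mul_distrib, prod_chi h3]
  have h := prod_psi hp2 ψ
  have h' : ∏ k ∈ univ.erase (0 : ZMod p), ψ k = 1 := by
    rw [← h]
    apply Finset.prod_bij (fun (x : ZMod p) _ => -x)
    · intro a ha; simpa using ha
    · intro a _ b _ hab; simpa using hab
    · intro b hb
      exact ⟨-b, by simpa using hb, by simp⟩
    · intro a _; simp
  rw [h', mul_one]

lemma PP_eval_zero {m : ℕ} (h3 : p % 4 = 3) (hm : p = 2 * m + 1) (ψ : AddChar (ZMod p) K) :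
    (PP ψ).eval 0 = -1 := by
  rw [PP, eval_prod]
  simp only [eval_sub, eval_X, eval_C, zero_sub]
  rw [prod_neg, prod_rho h3, card_univ, card_units' hm, pow_mul]
  simp

lemma prod_one_sub {m : ℕ} (hm : p = 2 * m + 1) (ψ : AddChar (ZMod p) K) (hψ : ψ.IsPrimitive) :
    ∏ u : (ZMod p)ˣ, (ψ (u : ZMod p) - 1) = p := by
  have hζ : IsPrimitiveRoot (ψ 1) (2 * m + 1) := by
    rw [IsPrimitiveRoot.iff_def]
    refine ⟨?_, ?_⟩
    · rw [← hm]; exact psi_pow_p ψ 1
    · intro l hl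
      rw [psi_pow, mul_one, hψ.zmod_char_eq_one_iff, ZMod.natCast_eq_zero_iff] at hl
      rwa [← hm]
  have h := hζ.prod_one_sub_pow_eq_order
  have h1 : ∏ u : (ZMod p)ˣ, (ψ (u : ZMod p) - 1) = ∏ k ∈ range (2 * m), (1 - ψ 1 ^ (k + 1)) := by
    have h2 : ∏ u : (ZMod p)ˣ, (ψ (u : ZMod p) - 1) = ∏ u : (ZMod p)ˣ, (1 - ψ (u : ZMod p)) := by
      have : ∀ u : (ZMod p)ˣ, ψ (u : ZMod p) - 1 = -(1 - ψ (u : ZMod p)) := fun u => by ring
      rw [prod_congr rfl (fun u _ => this u), prod_neg, card_univ, card_units' hm, pow_mul]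
      simp
    rw [h2, ← prod_units (fun k => 1 - ψ k)]
    symm
    apply Finset.prod_bij (fun (k : ℕ) _ => ((k + 1 : ℕ) : ZMod p))
    · intro a ha
      rw [mem_range] at ha
      rw [mem_erase]
      refine ⟨?_, mem_univ _⟩
      rw [Ne, ZMod.natCast_eq_zero_iff]
      exact Nat.not_dvd_of_pos_of_lt (by omega) (by omega)
    · intro a ha b hb hab
      rw [mem_range] at ha hb
      have := congrArg ZMod.val hab
      rw [ZMod.val_natCast_of_lt (by omega), ZMod.val_natCast_of_lt (by omega)] at this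
      omega
    · intro b hb
      rw [mem_erase] at hb
      have h4 : b.val ≠ 0 := by rw [Ne, ZMod.val_eq_zero]; exact hb.1
      have h5 := ZMod.val_lt b
      refine ⟨b.val - 1, by rw [mem_range]; omega, ?_⟩
      rw [Nat.sub_add_cancel (by omega)]
      simp
    · intro a _
      rw [psi_pow, mul_one]
  rw [h1, h, hm]
  push_cast
  ring

lemma PP_eval_mul {m : ℕ} (h3 : p % 4 = 3) (hm : p = 2 * m + 1)
    (ψ : AddChar (ZMod p) K) (hψ : ψ.IsPrimitive) :
    (PP ψ).eval 1 * (PP ψ).eval (-1) = p := by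
  have hp2 : p ≠ 2 := by rintro rfl; omega
  have h2u : IsUnit (2 : ZMod p) := by
    rw [isUnit_iff_ne_zero]
    intro h
    have : ((2 : ℕ) : ZMod p) = 0 := by exact_mod_cast h
    rw [ZMod.natCast_eq_zero_iff] at this
    exact hp2 ((Nat.prime_dvd_prime_iff_eq (Fact.out : p.Prime) Nat.prime_two).mp this)
  rw [PP, eval_prod, eval_prod, ← prod_mul_distrib, ← prod_one_sub hm ψ hψ]
  apply Fintype.prod_equiv (Equiv.mulLeft h2u.unit)
  intro u
  simp only [eval_sub, eval_X, eval_C, Equiv.coe_mulLeft, Units.val_mul, IsUnit.unit_spec]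
  have h4 : ψ (2 * (u : ZMod p)) = ψ (u : ZMod p) ^ 2 := by rw [psi_pow]; norm_num
  have h5 : rho ψ (u : ZMod p) ^ 2 = ψ (u : ZMod p) ^ 2 := by
    rw [rho, mul_pow, sq (chi p K _), chi_sq u.ne_zero, one_mul]
  rw [h4, ← h5]; ring

/-- power sums -/
lemma psum_one (ψ : AddChar (ZMod p) K) :
    ∑ u : (ZMod p)ˣ, rho ψ (u : ZMod p) = gaussSum (chi p K) ψ := by
  rw [sum_units (fun k => rho ψ k), gaussSum]
  simp [rho, MulChar.map_zero]

lemma psum_two (hp2 : p ≠ 2) (ψ : AddChar (ZMod p) K) (hψ : ψ.IsPrimitive) :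
    ∑ u : (ZMod p)ˣ, rho ψ (u : ZMod p) ^ 2 = -1 := by
  have h5 : ∀ u : (ZMod p)ˣ, rho ψ (u : ZMod p) ^ 2 = ψ ((u : ZMod p) * 2) := by
    intro u
    rw [rho, mul_pow, sq (chi p K _), chi_sq u.ne_zero, one_mul, psi_pow]
    congr 1
    push_cast
    ring
  rw [sum_congr rfl (fun u _ => h5 u), sum_units (fun k => ψ (k * 2)),
    AddChar.sum_mulShift _ hψ]
  have : (2 : ZMod p) ≠ 0 := by
    intro h
    have : ((2 : ℕ) : ZMod p) = 0 := by exact_mod_cast h
    rw [ZMod.natCast_eq_zero_iff] at this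
    exact hp2 ((Nat.prime_dvd_prime_iff_eq (Fact.out : p.Prime) Nat.prime_two).mp this)
  simp [this]

lemma psum_three (h3 : p % 4 = 3) (h2 : (2 : K) ≠ 0) (ψ : AddChar (ZMod p) K) :
    ∑ u : (ZMod p)ˣ, rho ψ (u : ZMod p) ^ 3 = chi p K 3 * gaussSum (chi p K) ψ := by
  rw [← gauss_shift h3 h2 ψ 3]
  have h5 : ∀ u : (ZMod p)ˣ, rho ψ (u : ZMod p) ^ 3 = chi p K u * ψ (3 * (u : ZMod p)) := by
    intro u
    have h6 : chi p K (u : ZMod p) ^ 3 = chi p K (u : ZMod p) := by
      rw [pow_succ, sq, chi_sq u.ne_zero, one_mul]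
    rw [rho, mul_pow, h6, psi_pow]
    push_cast
    ring_nf
  rw [sum_congr rfl (fun u _ => h5 u), sum_units (fun k => chi p K k * ψ (3 * k))]
  simp [MulChar.map_zero]

/-- elementary symmetric functions of the roots -/
noncomputable def es (ψ : AddChar (ZMod p) K) (k : ℕ) : K :=
  MvPolynomial.aeval (fun u : (ZMod p)ˣ => rho ψ (u : ZMod p)) (MvPolynomial.esymm (ZMod p)ˣ K k)

lemma newton (ψ : AddChar (ZMod p) K) (k : ℕ) :
    (k : K) * es ψ k = (-1) ^ (k + 1) * ∑ a ∈ antidiagonal k with a.1 < k,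
      (-1) ^ a.1 * es ψ a.1 * ∑ u : (ZMod p)ˣ, rho ψ (u : ZMod p) ^ a.2 := by
  have h := congrArg (MvPolynomial.aeval (fun u : (ZMod p)ˣ => rho ψ (u : ZMod p)))
    (MvPolynomial.mul_esymm_eq_sum (ZMod p)ˣ K k)
  rw [map_mul, map_mul, map_sum, map_natCast] at h
  rw [es, h]
  congr 1
  · simp
  · refine sum_congr rfl (fun a _ => ?_)
    rw [map_mul, map_mul, es]
    congr 1
    · simp
    · simp [MvPolynomial.psum]

lemma es_zero (ψ : AddChar (ZMod p) K) : es ψ 0 = 1 := by simp [es]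

lemma es_one (ψ : AddChar (ZMod p) K) : es ψ 1 = gaussSum (chi p K) ψ := by
  have h := newton ψ 1
  have hf : ({a ∈ antidiagonal 1 | a.1 < 1} : Finset (ℕ × ℕ)) = {(0, 1)} := by decide
  rw [hf, sum_singleton] at h
  simp only [pow_one, psum_one, es_zero] at h
  simpa using h

lemma es_two (hp2 : p ≠ 2) (ψ : AddChar (ZMod p) K) (hψ : ψ.IsPrimitive) :
    2 * es ψ 2 = gaussSum (chi p K) ψ ^ 2 + 1 := by
  have h := newton ψ 2
  have hf : ({a ∈ antidiagonal 2 | a.1 < 2} : Finset (ℕ × ℕ)) = {(0, 2), (1, 1)} := by decide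
  rw [hf, sum_insert (by decide), sum_singleton] at h
  simp only [pow_one, psum_one, psum_two hp2 ψ hψ, es_zero, es_one] at h
  push_cast at h
  rw [h]; ring

lemma es_three (h3 : p % 4 = 3) (h2 : (2 : K) ≠ 0) (ψ : AddChar (ZMod p) K)
    (hψ : ψ.IsPrimitive) :
    6 * es ψ 3 = gaussSum (chi p K) ψ * (gaussSum (chi p K) ψ ^ 2 + 3 + 2 * chi p K 3) := by
  have hp2 : p ≠ 2 := by rintro rfl; omega
  have h := newton ψ 3
  have hf : ({a ∈ antidiagonal 3 | a.1 < 3} : Finset (ℕ × ℕ)) = {(0, 3), (1, 2), (2, 1)} := by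
    decide
  rw [hf, sum_insert (by decide), sum_insert (by decide), sum_singleton] at h
  simp only [pow_one, psum_one, psum_two hp2 ψ hψ, psum_three h3 h2, es_zero, es_one] at h
  have h4 := es_two hp2 ψ hψ
  push_cast at h
  linear_combination 2 * h + gaussSum (chi p K) ψ * h4

lemma PP_coeff_top {m : ℕ} (hm : p = 2 * m + 1) (ψ : AddChar (ZMod p) K) {k : ℕ}
    (hk : k ≤ 2 * m) : (PP ψ).coeff (2 * m - k) = (-1) ^ k * es ψ k := by
  have h := Multiset.prod_X_sub_C_coeff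
    ((univ : Finset (ZMod p)ˣ).val.map (fun u : (ZMod p)ˣ => rho ψ (u : ZMod p))) (k := 2 * m - k)
    (by rw [Multiset.card_map, card_val, card_univ, card_units' hm]; omega)
  rw [Multiset.card_map, card_val, card_univ, card_units' hm, Multiset.map_map,
    show 2 * m - (2 * m - k) = k by omega, ← MvPolynomial.aeval_esymm_eq_multiset_esymm
      (ZMod p)ˣ K k] at h
  exact h

lemma reflect_prod {ι : Type*} (s : Finset ι) (a : ι → K) :
    reflect s.card (∏ i ∈ s, (X - C (a i))) = ∏ i ∈ s, (1 - C (a i) * X) := by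
  classical
  induction s using Finset.induction_on with
  | empty => simp [reflect_one]
  | insert i s hi ih =>
    rw [prod_insert hi, prod_insert hi, card_insert_of_notMem hi, add_comm s.card 1,
      reflect_mul _ _ (F := 1) (G := s.card) (by simp) ?_, ih]
    · congr 1
      rw [reflect_sub, reflect_one_X, reflect_C, pow_one]
    · rw [natDegree_prod_of_monic _ _ (fun _ _ => monic_X_sub_C _)]
      simp

lemma PP_coeff_bot {m : ℕ} (h3 : p % 4 = 3) (hm : p = 2 * m + 1) (ψ : AddChar (ZMod p) K) {k : ℕ}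
    (hk : k ≤ 2 * m) : (PP ψ).coeff k = -es ψ k := by
  have h1 : reflect (2 * m) (PP ψ) = ∏ u : (ZMod p)ˣ, (1 - C (rho ψ u) * X) := by
    rw [← reflect_prod, card_univ, card_units' hm]; rfl
  have h2 : ∏ u : (ZMod p)ˣ, (1 - C (rho ψ u) * X) = -∏ u : (ZMod p)ˣ, (X + C (rho ψ u)) := by
    have e1 : ∀ u : (ZMod p)ˣ, (1 - C (rho ψ u) * X) = C (-rho ψ u) * (X + C (rho ψ (-u : (ZMod p)ˣ))) := by
      intro u
      have e2 : -rho ψ u * rho ψ (-u : (ZMod p)ˣ) = 1 := by
        rw [rho, rho, Units.val_neg, chi_neg h3]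
        have e3 : ψ (u : ZMod p) * ψ (-(u : ZMod p)) = 1 := by
          rw [← AddChar.map_add_eq_mul, add_neg_cancel, AddChar.map_zero_eq_one]
        have e4 := chi_sq (K := K) u.ne_zero
        linear_combination (chi p K u * chi p K u) * e3 + e4
      rw [mul_add, ← C_mul, e2]
      simp
      ring
    rw [prod_congr rfl (fun u _ => e1 u), prod_mul_distrib]
    have e5 : ∏ u : (ZMod p)ˣ, C (-rho ψ u) = (-1 : K[X]) := by
      rw [← map_prod, prod_neg, prod_rho h3, card_univ, card_units' hm, pow_mul]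
      simp
    have e6 : ∏ u : (ZMod p)ˣ, (X + C (rho ψ (-u : (ZMod p)ˣ))) = ∏ u : (ZMod p)ˣ, (X + C (rho ψ u)) :=
      Fintype.prod_equiv (Equiv.neg _) _ _ (fun u => rfl)
    rw [e5, e6]; ring
  have h4 := congrArg (fun f => f.coeff (2 * m - k)) (h1.trans h2)
  simp only [coeff_reflect, coeff_neg] at h4
  rw [revAt_le (by omega), show 2 * m - (2 * m - k) = k by omega] at h4
  rw [h4]
  congr 1
  have h := Multiset.prod_X_add_C_coeff
    ((univ : Finset (ZMod p)ˣ).val.map (fun u : (ZMod p)ˣ => rho ψ (u : ZMod p))) (k := 2 * m - k)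
    (by rw [Multiset.card_map, card_val, card_univ, card_units' hm]; omega)
  rw [Multiset.card_map, card_val, card_univ, card_units' hm, Multiset.map_map,
    show 2 * m - (2 * m - k) = k by omega, ← MvPolynomial.aeval_esymm_eq_multiset_esymm
      (ZMod p)ˣ K k] at h
  exact h

/-! ### Coefficients of the two parts -/

omit [Fact p.Prime] in
lemma EE_coeff_odd (N : ℕ) (S : ZMod p → K) {n : ℕ} (hn : Odd n) : (EE p N S).coeff n = 0 := by
  rw [EE, finsetSum_coeff]
  refine sum_eq_zero (fun l _ => ?_)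
  rw [coeff_C_mul, coeff_X_pow, if_neg, mul_zero]
  rintro rfl
  exact (Nat.not_odd_iff_even.2 (even_two_mul l)) hn

lemma EE_coeff_zero (N : ℕ) (hN : N < p) (S : ZMod p → K) :
    (EE p N S).coeff 0 = S ((N : ℕ) : ZMod p) := by
  rw [EE, finsetSum_coeff, sum_eq_single 0]
  · simp
  · intro l _ hl
    rw [coeff_C_mul, coeff_X_pow, if_neg (by omega), mul_zero]
  · intro h
    exact absurd (mem_range.2 (by omega)) h

omit [Fact p.Prime] in
lemma OO_coeff (N : ℕ) (c : K) (v : ℕ → K) {n : ℕ} (hn : n < p - 2 * N ∨ p - 1 ≤ n) (hN : 2 * N < p) :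
    (OO p N c v).coeff n = 0 := by
  rw [OO, finsetSum_coeff]
  refine sum_eq_zero (fun j hj => ?_)
  rw [mem_range] at hj
  rw [coeff_C_mul, coeff_X_pow, if_neg, mul_zero]
  omega

omit [Fact p.Prime] in
lemma natDegree_le (N : ℕ) (hN : 2 * N < p) (c : K) (v : ℕ → K) (S : ZMod p → K) :
    (EE p N S - OO p N c v).natDegree ≤ 2 * (p - 1 - N) := by
  refine (natDegree_sub_le _ _).trans (max_le ?_ ?_)
  · rw [EE]
    refine natDegree_sum_le_of_forall_le _ _ (fun l hl => ?_)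
    rw [mem_range] at hl
    refine (natDegree_C_mul_X_pow_le _ _).trans ?_
    omega
  · rw [OO]
    refine natDegree_sum_le_of_forall_le _ _ (fun l hl => ?_)
    rw [mem_range] at hl
    refine (natDegree_C_mul_X_pow_le _ _).trans ?_
    omega

/-- factorization with a quotient of small degree -/
lemma exists_q {m : ℕ} (hm : p = 2 * m + 1) (h3 : p % 4 = 3) (h2 : (2 : K) ≠ 0)
    (ψ : AddChar (ZMod p) K)
    (hψ : ψ.IsPrimitive) (N : ℕ) (hN : 2 * N < p) (v : ℕ → K) (S : ZMod p → K)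
    (hS : ∀ i, S i = ∑ j ∈ range N, chi p K (i - (j : ZMod p)) * v j)
    (h0 : ∀ i < N, S (i : ZMod p) = 0) :
    ∃ q : K[X], q.natDegree ≤ 2 * (m - N) ∧
      EE p N S - OO p N (gaussSum (chi p K) ψ * chi p K 2) v = PP ψ * q := by
  obtain ⟨q, hq⟩ := PP_dvd h3 h2 ψ hψ N hN v S hS h0
  refine ⟨q, ?_, hq⟩
  rcases eq_or_ne q 0 with rfl | hq0
  · simp
  have h4 := natDegree_le N hN (gaussSum (chi p K) ψ * chi p K 2) v S
  rw [hq, (PP_monic ψ).natDegree_mul' hq0, PP_natDegree hm] at h4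
  omega

lemma g_sq (h3 : p % 4 = 3) (h2 : (2 : K) ≠ 0) (ψ : AddChar (ZMod p) K)
    (hψ : ψ.IsPrimitive) : gaussSum (chi p K) ψ ^ 2 = -(p : K) := by
  rw [gaussSum_sq (χ := chi p K) (chi_ne_one h3 h2) chi_quad hψ, chi_neg h3, ZMod.card]
  simp

lemma chi_two_sq (h3 : p % 4 = 3) : chi p K 2 ^ 2 = 1 := by
  have hp2 : p ≠ 2 := by rintro rfl; omega
  rw [sq]
  apply chi_sq
  intro h
  have : ((2 : ℕ) : ZMod p) = 0 := by exact_mod_cast h
  rw [ZMod.natCast_eq_zero_iff] at this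
  exact hp2 ((Nat.prime_dvd_prime_iff_eq (Fact.out : p.Prime) Nat.prime_two).mp this)

/-- value at `-1` and at `1` of `F = E - O` -/
lemma F_values (h3 : p % 4 = 3) (h2 : (2 : K) ≠ 0) (ψ : AddChar (ZMod p) K)
    (N : ℕ) (hN : 2 * N < p) (v : ℕ → K) (S : ZMod p → K)
    (hS : ∀ i, S i = ∑ j ∈ range N, chi p K (i - (j : ZMod p)) * v j)
    (h0 : ∀ i < N, S (i : ZMod p) = 0) :
    (EE p N S - OO p N (gaussSum (chi p K) ψ * chi p K 2) v).eval (-1)
      = gaussSum (chi p K) ψ * chi p K 2 * ∑ j ∈ range N, v j ∧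
    (EE p N S - OO p N (gaussSum (chi p K) ψ * chi p K 2) v).eval 1
      = -(gaussSum (chi p K) ψ * chi p K 2 * ∑ j ∈ range N, v j) := by
  have hp : Odd p := Nat.odd_iff.2 (by omega)
  rw [eval_sub, eval_sub, EE_even, OO_odd hp N hN, eval_one h3 h2 ψ N hN v S hS h0, OO_eval_one]
  constructor <;> ring

/-- order `m`: the quotient is constant -/
theorem order_m {m : ℕ} (hm : p = 2 * m + 1) (h3 : p % 4 = 3) (h2 : (2 : K) ≠ 0)
    (hpK : (p : K) ≠ 0) (ψ : AddChar (ZMod p) K) (hψ : ψ.IsPrimitive) (v : ℕ → K)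
    (S : ZMod p → K) (hS : ∀ i, S i = ∑ j ∈ range m, chi p K (i - (j : ZMod p)) * v j)
    (h0 : ∀ i < m, S (i : ZMod p) = 0) (hc : S (m : ZMod p) = 1) :
    (PP ψ).eval (-1) ^ 2 = -(p : K) ∧ (∑ j ∈ range m, v j) ^ 2 = 1 := by
  obtain ⟨q, hq1, hq⟩ := exists_q hm h3 h2 ψ hψ m (by omega) v S hS h0
  rw [Nat.sub_self, mul_zero, Nat.le_zero] at hq1
  rw [natDegree_eq_zero] at hq1
  obtain ⟨a, rfl⟩ := hq1
  obtain ⟨hv1, hv2⟩ := F_values h3 h2 ψ m (by omega) v S hS h0
  have ha : a = -1 := by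
    have h4 := congrArg (fun f => f.coeff 0) hq
    simp only [coeff_sub] at h4
    rw [EE_coeff_zero m (by omega), OO_coeff m _ v (Or.inl (by omega)) (by omega), hc,
      mul_coeff_zero, coeff_zero_eq_eval_zero, PP_eval_zero h3 hm, coeff_C_zero] at h4
    linear_combination h4
  rw [ha] at hq
  rw [hq, eval_mul, eval_C] at hv1 hv2
  have h5 := PP_eval_mul h3 hm ψ hψ
  have h6 : (PP ψ).eval 1 = -(PP ψ).eval (-1) := by linear_combination -hv1 - hv2
  have h7 : (PP ψ).eval (-1) ^ 2 = -(p : K) := by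
    rw [h6] at h5
    linear_combination -h5
  refine ⟨h7, ?_⟩
  have h8 := g_sq h3 h2 ψ hψ
  have h9 := chi_two_sq (K := K) h3
  have h10 : (gaussSum (chi p K) ψ * chi p K 2 * ∑ j ∈ range m, v j) ^ 2 = -(p : K) := by
    rw [← hv1]; linear_combination h7
  have h11 : (p : K) * ((∑ j ∈ range m, v j) ^ 2 - 1) = 0 := by
    rw [mul_pow, mul_pow, h8, h9] at h10
    linear_combination -h10
  have h12 := (mul_eq_zero.1 h11).resolve_left hpK
  linear_combination h12

/-- order `m - 2`: the quotient is quartic -/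
theorem order_m2 {m : ℕ} (hm : p = 2 * m + 1) (hm3 : 3 ≤ m) (h3 : p % 4 = 3) (h2 : (2 : K) ≠ 0)
    (h3K : (3 : K) ≠ 0)
    (hpK : (p : K) ≠ 0) (hpK3 : (p : K) + chi p K 3 ≠ 3) (ψ : AddChar (ZMod p) K)
    (hψ : ψ.IsPrimitive)
    (hPP : (PP ψ).eval (-1) ^ 2 = -(p : K)) (v : ℕ → K)
    (S : ZMod p → K) (hS : ∀ i, S i = ∑ j ∈ range (m - 2), chi p K (i - (j : ZMod p)) * v j)
    (h0 : ∀ i < m - 2, S (i : ZMod p) = 0) (hc : S ((m - 2 : ℕ) : ZMod p) = 1) :
    9 * (∑ j ∈ range (m - 2), v j) ^ 2 = ((p : K) - 3 + chi p K 3) ^ 2 := by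
  obtain ⟨q, hq1, hq⟩ := exists_q hm h3 h2 ψ hψ (m - 2) (by omega) v S hS h0
  have hp2 : p ≠ 2 := by omega
  rw [show 2 * (m - (m - 2)) = 4 by omega] at hq1
  obtain ⟨hv1, -⟩ := F_values h3 h2 ψ (m - 2) (by omega) v S hS h0
  set g := gaussSum (chi p K) ψ with hg
  have hg2 : g ^ 2 = -(p : K) := g_sq h3 h2 ψ hψ
  have hg0 : g ≠ 0 := by
    intro h
    rw [h] at hg2
    apply hpK
    linear_combination hg2
  set q0 := q.coeff 0
  set q1 := q.coeff 1
  set q2 := q.coeff 2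
  set q3 := q.coeff 3
  set q4 := q.coeff 4
  have hqe : q = C q0 + C q1 * X + C q2 * X ^ 2 + C q3 * X ^ 3 + C q4 * X ^ 4 := by
    conv_lhs => rw [q.as_sum_range' 5 (by omega)]
    simp only [sum_range_succ, range_zero, sum_empty, zero_add, ← C_mul_X_pow_eq_monomial, pow_zero,
      mul_one, pow_one]
    rfl
  -- coefficients of the product
  have hco : ∀ n, (PP ψ * q).coeff (n + 4) = (PP ψ).coeff (n + 4) * q0 + (PP ψ).coeff (n + 3) * q1
      + (PP ψ).coeff (n + 2) * q2 + (PP ψ).coeff (n + 1) * q3 + (PP ψ).coeff n * q4 := by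
    intro n
    rw [hqe]
    have e : PP ψ * (C q0 + C q1 * X + C q2 * X ^ 2 + C q3 * X ^ 3 + C q4 * X ^ 4)
        = C q0 * PP ψ + C q1 * (PP ψ * X) + C q2 * (PP ψ * X ^ 2) + C q3 * (PP ψ * X ^ 3)
          + C q4 * (PP ψ * X ^ 4) := by ring
    rw [e]
    simp only [coeff_add, coeff_C_mul]
    rw [show n + 4 = (n + 3) + 1 by ring, coeff_mul_X, show n + 3 + 1 = (n + 2) + 2 by ring,
      coeff_mul_X_pow, show n + 2 + 2 = (n + 1) + 3 by ring, coeff_mul_X_pow,
      show n + 1 + 3 = n + 4 by ring, coeff_mul_X_pow]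
    ring
  -- the vanishing coefficients
  have hodd : ∀ n, Odd n → n < 5 ∨ 2 * m ≤ n → (PP ψ * q).coeff n = 0 := by
    intro n hn hn2
    rw [← hq, coeff_sub, EE_coeff_odd _ _ hn, OO_coeff _ _ _ (by omega) (by omega), sub_zero]
  -- coefficients of `PP`
  have e1 : es ψ 1 = g := es_one ψ
  have e2 : 2 * es ψ 2 = g ^ 2 + 1 := es_two hp2 ψ hψ
  have e3 : 6 * es ψ 3 = g * (g ^ 2 + 3 + 2 * chi p K 3) := es_three h3 h2 ψ hψ
  have t0 : (PP ψ).coeff (2 * m) = 1 := by
    have := PP_coeff_top hm ψ (k := 0) (by omega)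
    simpa [es_zero] using this
  have t1 : (PP ψ).coeff (2 * m - 1) = -g := by
    rw [PP_coeff_top hm ψ (k := 1) (by omega), e1]; ring
  have t2 : (PP ψ).coeff (2 * m - 2) = es ψ 2 := by
    rw [PP_coeff_top hm ψ (k := 2) (by omega)]; ring
  have t3 : (PP ψ).coeff (2 * m - 3) = -es ψ 3 := by
    rw [PP_coeff_top hm ψ (k := 3) (by omega)]; ring
  have b0 : (PP ψ).coeff 0 = -1 := by rw [PP_coeff_bot h3 hm ψ (by omega), es_zero]
  have b1 : (PP ψ).coeff 1 = -g := by rw [PP_coeff_bot h3 hm ψ (by omega), e1]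
  have b2 : (PP ψ).coeff 2 = -es ψ 2 := PP_coeff_bot h3 hm ψ (by omega)
  have b3 : (PP ψ).coeff 3 = -es ψ 3 := PP_coeff_bot h3 hm ψ (by omega)
  have z : ∀ n, 2 * m < n → (PP ψ).coeff n = 0 := by
    intro n hn
    apply coeff_eq_zero_of_natDegree_lt
    rw [PP_natDegree hm]; exact hn
  -- the equations
  have c0 : q0 = -1 := by
    have h4 := congrArg (fun f => f.coeff 0) hq
    simp only [coeff_sub] at h4
    rw [EE_coeff_zero (m - 2) (by omega), OO_coeff (m - 2) _ v (Or.inl (by omega)) (by omega), hc,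
      mul_coeff_zero, b0] at h4
    linear_combination h4
  have c1 : -q1 - g * q0 = 0 := by
    have h4 := hodd 1 (by decide) (Or.inl (by omega))
    rw [mul_coeff_one, b0, b1] at h4
    linear_combination h4
  have c3 : -q3 - g * q2 - es ψ 2 * q1 - es ψ 3 * q0 = 0 := by
    have h4 := hodd 3 (by decide) (Or.inl (by omega))
    have ha : antidiagonal 3 = ({(0, 3), (1, 2), (2, 1), (3, 0)} : Finset (ℕ × ℕ)) := by decide
    rw [coeff_mul, ha, sum_insert (by decide), sum_insert (by decide), sum_insert (by decide),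
      sum_singleton] at h4
    rw [b0, b1, b2, b3] at h4
    linear_combination h4
  have d1 : q1 - g * q2 + es ψ 2 * q3 - es ψ 3 * q4 = 0 := by
    have h4 := hodd (2 * m + 1) ⟨m, rfl⟩ (Or.inr (by omega))
    have h5 := hco (2 * m - 3)
    rw [show 2 * m - 3 + 4 = 2 * m + 1 by omega, show 2 * m - 3 + 3 = 2 * m by omega,
      show 2 * m - 3 + 2 = 2 * m - 1 by omega, show 2 * m - 3 + 1 = 2 * m - 2 by omega,
      z (2 * m + 1) (by omega), t0, t1, t2, t3, h4] at h5
    linear_combination -h5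
  have d3 : q3 - g * q4 = 0 := by
    have h4 := hodd (2 * m + 3) ⟨m + 1, by ring⟩ (Or.inr (by omega))
    have h5 := hco (2 * m - 1)
    rw [show 2 * m - 1 + 4 = 2 * m + 3 by omega, show 2 * m - 1 + 3 = 2 * m + 2 by omega,
      show 2 * m - 1 + 2 = 2 * m + 1 by omega, show 2 * m - 1 + 1 = 2 * m by omega,
      z (2 * m + 3) (by omega), z (2 * m + 2) (by omega), z (2 * m + 1) (by omega), t0, t1,
      h4] at h5
    linear_combination -h5
  -- solve
  have h6 : (6 : K) ≠ 0 := by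
    have : (6 : K) = 2 * 3 := by norm_num
    rw [this]; exact mul_ne_zero h2 h3K
  have f1 : 3 * q0 + 3 * q2 + (chi p K 3 - g ^ 2) * q4 = 0 := by
    have : 2 * g * (3 * q0 + 3 * q2 + (chi p K 3 - g ^ 2) * q4) = 0 := by
      linear_combination -6 * d1 - 6 * c1 + 6 * es ψ 2 * d3 + 3 * g * q4 * e2 - q4 * e3
    exact (mul_eq_zero.1 this).resolve_left (mul_ne_zero h2 hg0)
  have f2 : 3 * q4 + 3 * q2 + (chi p K 3 - g ^ 2) * q0 = 0 := by
    have : 2 * g * (3 * q4 + 3 * q2 + (chi p K 3 - g ^ 2) * q0) = 0 := by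
      linear_combination -6 * c3 - 6 * d3 + 6 * es ψ 2 * c1 + 3 * g * q0 * e2 - q0 * e3
    exact (mul_eq_zero.1 this).resolve_left (mul_ne_zero h2 hg0)
  have f3 : q4 = q0 := by
    have : ((p : K) + chi p K 3 - 3) * (q4 - q0) = 0 := by
      linear_combination f1 - f2 + (q4 - q0) * hg2
    have h7 := (mul_eq_zero.1 this).resolve_left (by
      intro h; apply hpK3; linear_combination h)
    linear_combination h7
  have f4 : 3 * q.eval (-1) = (p : K) - 3 + chi p K 3 := by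
    have : q.eval (-1) = q0 - q1 + q2 - q3 + q4 := by
      rw [hqe]; simp [eval_add, eval_mul, eval_pow]; ring
    rw [this]
    linear_combination 3 * c1 - 3 * d3 + f1 + (3 - 3 * g - chi p K 3 + g ^ 2) * f3
      + (3 - chi p K 3 + g ^ 2) * c0 - hg2
  rw [hq, eval_mul] at hv1
  have h9 := chi_two_sq (K := K) h3
  have h10 : (p : K) * ((∑ j ∈ range (m - 2), v j) ^ 2 - q.eval (-1) ^ 2) = 0 := by
    have h11 : ((PP ψ).eval (-1) * q.eval (-1)) ^ 2
        = (g * chi p K 2 * ∑ j ∈ range (m - 2), v j) ^ 2 := by rw [hv1]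
    rw [mul_pow, mul_pow, mul_pow, hPP, hg2, h9] at h11
    linear_combination h11
  have h12 := (mul_eq_zero.1 h10).resolve_left hpK
  rw [← f4]
  linear_combination 9 * h12

end fourier

/-! ### Final results -/

section final

variable {p : ℕ} [Fact p.Prime]

lemma T_skew {K : Type*} [Field K] (h3 : p % 4 = 3) (n : ℕ) : (T p K n)ᵀ = -T p K n := by
  ext i j
  have := chi_neg (K := K) h3 (((i : ℕ) : ZMod p) - ((j : ℕ) : ZMod p))
  rw [neg_sub, chi_apply, chi_apply] at this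
  simpa [T] using this

lemma det_one (h3 : p % 4 = 3) (n : ℕ) (h : (T p ℤ n).det.natAbs = 1) : (T p ℂ n).det = 1 := by
  have hnn : 0 ≤ (T p ℤ n).det := by
    have h := det_skew_nonneg (T p ℝ n) (T_skew h3 n)
    rw [← det_cast] at h
    exact_mod_cast h
  have h1 : (T p ℤ n).det = 1 := by omega
  rw [← det_cast, h1]; simp

/-- the value of `det (T_N + r)` through the solution of the bordered system -/
lemma value (h3 : p % 4 = 3) (N : ℕ) (hdet : (T p ℂ (N + 1)).det = 1) :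
    ∃ v : ℕ → ℂ, (∀ i < N, ∑ j ∈ range N, chi p ℂ ((i : ZMod p) - (j : ZMod p)) * v j = 0) ∧
      ∑ j ∈ range N, chi p ℂ ((N : ZMod p) - (j : ZMod p)) * v j = 1 ∧
      ∀ r : ℂ, (T p ℂ N + Matrix.of (fun _ _ => r)).det = r * (∑ j ∈ range N, v j) ^ 2 := by
  have hunit : IsUnit (T p ℂ (N + 1)).det := by rw [hdet]; exact isUnit_one
  set w : Fin (N + 1) → ℂ := (T p ℂ (N + 1))⁻¹ *ᵥ (Pi.single (Fin.last N) 1) with hw
  have hBw : T p ℂ (N + 1) *ᵥ w = Pi.single (Fin.last N) 1 := by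
    rw [hw, Matrix.mulVec_mulVec, Matrix.mul_nonsing_inv _ hunit, Matrix.one_mulVec]
  have hwl : w (Fin.last N) = 0 := by
    have := skew_self two_ne_zero _ (T_skew h3 (N + 1)) w
    rw [hBw, dotProduct_single, mul_one] at this
    exact this
  have hsys : ∀ i : Fin (N + 1), ∑ j ∈ range N,
      chi p ℂ (((i : ℕ) : ZMod p) - (j : ZMod p)) * ext w j = (Pi.single (Fin.last N) 1 : Fin (N + 1) → ℂ) i := by
    intro i
    rw [← hBw, mulVec_eq, sum_range_succ]
    have : ext w N = 0 := by rw [← hwl]; exact ext_val w (Fin.last N)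
    rw [this, mul_zero, add_zero]
  refine ⟨ext w, ?_, ?_, ?_⟩
  · intro i hi
    have := hsys ⟨i, by omega⟩
    rw [Pi.single_apply, if_neg] at this
    · exact this
    · intro h
      have := congrArg Fin.val h
      simp at this
      omega
  · have := hsys (Fin.last N)
    rw [Pi.single_apply, if_pos rfl] at this
    exact this
  · intro r
    have h := border two_ne_zero (T p ℂ (N + 1)) (T_skew h3 (N + 1)) hdet w hBw r
    have e1 : (T p ℂ (N + 1)).submatrix Fin.castSucc Fin.castSucc = T p ℂ N := by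
      ext i j; simp [T]
    rw [e1] at h
    rw [h]
    congr 2
    rw [← Fin.sum_univ_eq_sum_range (fun j => ext w j) N]
    refine sum_congr rfl (fun j _ => ?_)
    exact (ext_val w j.castSucc).symm

theorem det_m (h3 : p % 4 = 3) {m : ℕ} (hm : p = 2 * m + 1) (r : ℂ) :
    (PP (ZMod.stdAddChar : AddChar (ZMod p) ℂ)).eval (-1) ^ 2 = -(p : ℂ) ∧
    (T p ℂ m + Matrix.of (fun _ _ => r)).det = r := by
  have hpK : (p : ℂ) ≠ 0 := by exact_mod_cast (Fact.out : p.Prime).ne_zero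
  have hdet := det_one h3 (m + 1) (det_unit (m + 1) (fun l _ v hv => sys_mod h3 m hm l v hv))
  obtain ⟨v, hv1, hv2, hv3⟩ := value h3 m hdet
  obtain ⟨h4, h5⟩ := order_m hm h3 two_ne_zero hpK ZMod.stdAddChar (ZMod.isPrimitive_stdAddChar p) v
    (fun i => ∑ j ∈ range m, chi p ℂ (i - (j : ZMod p)) * v j) (fun _ => rfl) hv1 hv2
  exact ⟨h4, by rw [hv3, h5, mul_one]⟩

theorem det_m2 (h3 : p % 4 = 3) {m : ℕ} (hm : p = 2 * m + 1) (hm3 : 3 ≤ m) (r : ℂ) :
    9 * (T p ℂ (m - 2) + Matrix.of (fun _ _ => r)).det = r * ((p : ℂ) - 3 + chi p ℂ 3) ^ 2 := by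
  have hpK : (p : ℂ) ≠ 0 := by exact_mod_cast (Fact.out : p.Prime).ne_zero
  have hdet := det_one h3 (m - 1) (det_unit (m - 1) (fun l _ v hv => mid_mod h3 m hm (by omega) l v hv))
  rw [show m - 1 = m - 2 + 1 by omega] at hdet
  obtain ⟨v, hv1, hv2, hv3⟩ := value h3 (m - 2) hdet
  have hPP := (det_m h3 hm 0).1
  have hne : (p : ℂ) + chi p ℂ 3 ≠ 3 := by
    intro h
    rcases chi_quad (K := ℂ) (3 : ZMod p) with h' | h' | h'
    · rw [h', add_zero] at h
      have : p = 3 := by exact_mod_cast h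
      omega
    · rw [h'] at h
      have : p + 1 = 3 := by exact_mod_cast h
      omega
    · rw [h'] at h
      have h2 : (p : ℂ) = 4 := by linear_combination h
      have : p = 4 := by exact_mod_cast h2
      omega
  have h5 := order_m2 hm hm3 h3 two_ne_zero three_ne_zero hpK hne ZMod.stdAddChar
    (ZMod.isPrimitive_stdAddChar p) hPP v
    (fun i => ∑ j ∈ range (m - 2), chi p ℂ (i - (j : ZMod p)) * v j) (fun _ => rfl) hv1 hv2
  rw [hv3]
  linear_combination r * h5

/-- integer version -/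
theorem det_int_m (h3 : p % 4 = 3) {m : ℕ} (hm : p = 2 * m + 1) (r : ℤ) :
    (T p ℤ m + Matrix.of (fun _ _ => r)).det = r := by
  have h := (Int.castRingHom ℂ).map_det (T p ℤ m + Matrix.of (fun _ _ => r))
  rw [RingHom.mapMatrix_apply, Matrix.map_add _ (map_add (Int.castRingHom ℂ)), T_map] at h
  have e : (Matrix.of (fun _ _ => r) : Matrix (Fin m) (Fin m) ℤ).map (Int.castRingHom ℂ)
      = Matrix.of (fun _ _ => (r : ℂ)) := by ext; simp
  rw [e, (det_m h3 hm (r : ℂ)).2] at h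
  exact Int.cast_injective (α := ℂ) h

theorem det_int_m2 (h3 : p % 4 = 3) {m : ℕ} (hm : p = 2 * m + 1) (hm3 : 3 ≤ m) (r : ℤ) :
    9 * (T p ℤ (m - 2) + Matrix.of (fun _ _ => r)).det
      = r * ((p : ℤ) - 3 + quadraticChar (ZMod p) 3) ^ 2 := by
  have h := (Int.castRingHom ℂ).map_det (T p ℤ (m - 2) + Matrix.of (fun _ _ => r))
  rw [RingHom.mapMatrix_apply, Matrix.map_add _ (map_add (Int.castRingHom ℂ)), T_map] at h
  have e : (Matrix.of (fun _ _ => r) : Matrix (Fin (m - 2)) (Fin (m - 2)) ℤ).map (Int.castRingHom ℂ)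
      = Matrix.of (fun _ _ => (r : ℂ)) := by ext; simp
  have h2 := det_m2 h3 hm hm3 (r : ℂ)
  rw [e] at h
  rw [← h, chi_apply] at h2
  have h4 : (Int.castRingHom ℂ) (9 * (T p ℤ (m - 2) + Matrix.of (fun _ _ => r)).det)
      = (Int.castRingHom ℂ) (r * ((p : ℤ) - 3 + quadraticChar (ZMod p) 3) ^ 2) := by
    rw [map_mul]
    refine Eq.trans ?_ (h2.trans ?_)
    · congr 1
    · simp
  exact Int.cast_injective (α := ℂ) h4

end final

end Pool.Agent.Q267.ChapU
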