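import Mathlib

namespace Pool.Agent.Q267.MaxProd

open Finset

noncomputable def S (f : ℕ → ℝ) (k : ℕ) : ℝ := ∑ i ∈ range k, f i
noncomputable def E (f : ℕ → ℝ) (k : ℕ) : ℝ := ∑ j ∈ range k, f j * S f j
noncomputable def P (f : ℕ → ℝ) (k : ℕ) : ℝ := ∏ i ∈ range k, f i

lemma S_zero (f : ℕ → ℝ) : S f 0 = 0 := by simp [S]
lemma E_zero (f : ℕ → ℝ) : E f 0 = 0 := by simp [E]
lemma P_zero (f : ℕ → ℝ) : P f 0 = 1 := by simp [P]
lemma S_succ (f : ℕ → ℝ) (k : ℕ) : S f (k+1) = S f k + f k := by simp [S, sum_range_succ]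
lemma E_succ (f : ℕ → ℝ) (k : ℕ) : E f (k+1) = E f k + f k * S f k := by
  simp [E, sum_range_succ]
lemma P_succ (f : ℕ → ℝ) (k : ℕ) : P f (k+1) = P f k * f k := by simp [P, prod_range_succ]

lemma S_nonneg {f : ℕ → ℝ} (hf : ∀ i, 0 < f i) (k : ℕ) : 0 ≤ S f k :=
  sum_nonneg (fun i _ => (hf i).le)

lemma P_pos {f : ℕ → ℝ} (hf : ∀ i, 0 < f i) (k : ℕ) : 0 < P f k :=
  prod_pos (fun i _ => hf i)

lemma S_pos {f : ℕ → ℝ} (hf : ∀ i, 0 < f i) {k : ℕ} (hk : 0 < k) : 0 < S f k :=
  sum_pos (fun i _ => hf i) ⟨0, by simpa using hk⟩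

lemma S_mono {f : ℕ → ℝ} (hf : ∀ i, 0 < f i) {j k : ℕ} (h : j ≤ k) : S f j ≤ S f k := by
  induction k, h using Nat.le_induction with
  | base => exact le_rfl
  | succ k _ ih => rw [S_succ]; linarith [hf k]

lemma E_mono {f : ℕ → ℝ} (hf : ∀ i, 0 < f i) {j k : ℕ} (h : j ≤ k) : E f j ≤ E f k := by
  induction k, h using Nat.le_induction with
  | base => exact le_rfl
  | succ k _ ih => rw [E_succ]; nlinarith [hf k, S_nonneg hf k]

/-- splitting of the sums into a prefix and a block -/
lemma S_add (f : ℕ → ℝ) (k m : ℕ) : S f (k+m) = S f k + S (fun l => f (k+l)) m := by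
  simp [S, sum_range_add]

lemma P_add (f : ℕ → ℝ) (k m : ℕ) : P f (k+m) = P f k * P (fun l => f (k+l)) m := by
  simp [P, prod_range_add]

lemma E_add (f : ℕ → ℝ) (k m : ℕ) :
    E f (k+m) = E f k + (S f k * S (fun l => f (k+l)) m + E (fun l => f (k+l)) m) := by
  induction m with
  | zero => simp [S_zero, E_zero]
  | succ m ih =>
    rw [← add_assoc, E_succ, ih, S_succ, E_succ, S_add]
    ring

/-- congruence of prefix quantities -/
lemma S_congr {f g : ℕ → ℝ} {k : ℕ} (h : ∀ i < k, f i = g i) : S f k = S g k :=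
  sum_congr rfl (fun i hi => h i (mem_range.mp hi))

lemma P_congr {f g : ℕ → ℝ} {k : ℕ} (h : ∀ i < k, f i = g i) : P f k = P g k :=
  prod_congr rfl (fun i hi => h i (mem_range.mp hi))

lemma E_congr {f g : ℕ → ℝ} {k : ℕ} (h : ∀ i < k, f i = g i) : E f k = E g k := by
  refine sum_congr rfl (fun i hi => ?_)
  rw [mem_range] at hi
  rw [h i hi, S_congr (fun l hl => h l (hl.trans hi))]

/-- `log r ≤ r - 1` in the form used here. -/
lemma log_term {a b : ℝ} (ha : 0 < a) (hb : 0 < b) : a * Real.log (b / a) ≤ b - a := by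
  have h := Real.log_le_sub_one_of_pos (div_pos hb ha)
  have h2 := mul_le_mul_of_nonneg_left h ha.le
  have h3 : a * (b / a - 1) = b - a := by field_simp
  linarith

/-- convexity in logarithmic coordinates -/
lemma convex_log {s : ℝ} (hs : 0 ≤ s) {y z : ℕ → ℝ} (hy : ∀ i, 0 < y i) (hz : ∀ i, 0 < z i)
    (m : ℕ) :
    ∑ i ∈ range m, y i * (s + S y m - y i) * Real.log (z i / y i)
      ≤ (s * S z m + E z m) - (s * S y m + E y m) := by
  induction m with
  | zero => simp [S_zero, E_zero]
  | succ m ih =>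
    have key : ∀ i, y i * y m * (Real.log (z i / y i) + Real.log (z m / y m))
        ≤ z i * z m - y i * y m := by
      intro i
      have h := log_term (mul_pos (hy i) (hy m)) (mul_pos (hz i) (hz m))
      have e : z i * z m / (y i * y m) = (z i / y i) * (z m / y m) := by
        have := (hy i).ne'; have := (hy m).ne'; field_simp
      rw [e, Real.log_mul (div_pos (hz i) (hy i)).ne' (div_pos (hz m) (hy m)).ne'] at h
      exact h
    have h1 := log_term (hy m) (hz m)
    have h2 : ∑ i ∈ range m, y i * y m * (Real.log (z i / y i) + Real.log (z m / y m))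
        ≤ ∑ i ∈ range m, (z i * z m - y i * y m) := sum_le_sum (fun i _ => key i)
    have h3 : ∑ i ∈ range m, (z i * z m - y i * y m) = z m * S z m - y m * S y m := by
      simp only [S, mul_sum, ← sum_sub_distrib]
      exact sum_congr rfl (fun i _ => by ring)
    have h4 : ∑ i ∈ range m, y i * y m * (Real.log (z i / y i) + Real.log (z m / y m))
        = y m * ∑ i ∈ range m, y i * Real.log (z i / y i)
          + y m * S y m * Real.log (z m / y m) := by
      simp only [S, mul_sum, sum_mul, ← sum_add_distrib]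
      exact sum_congr rfl (fun i _ => by ring)
    have h5 : ∑ i ∈ range (m+1), y i * (s + S y (m+1) - y i) * Real.log (z i / y i)
        = ∑ i ∈ range m, y i * (s + S y m - y i) * Real.log (z i / y i)
          + y m * ∑ i ∈ range m, y i * Real.log (z i / y i)
          + y m * (s + S y m) * Real.log (z m / y m) := by
      rw [sum_range_succ, S_succ]
      have : ∑ i ∈ range m, y i * (s + (S y m + y m) - y i) * Real.log (z i / y i)
          = ∑ i ∈ range m, y i * (s + S y m - y i) * Real.log (z i / y i)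
          + y m * ∑ i ∈ range m, y i * Real.log (z i / y i) := by
        rw [mul_sum, ← sum_add_distrib]
        exact sum_congr rfl (fun i _ => by ring)
      rw [this]; ring
    rw [h5, S_succ, S_succ, E_succ, E_succ]
    have h6 := mul_le_mul_of_nonneg_left h1 hs
    nlinarith [h2, h3, h4, ih, h6]

/-- Abel summation -/
lemma abel {c l : ℕ → ℝ} {m : ℕ} (hm : 0 < m) (hc : ∀ i, i + 1 < m → c (i+1) ≤ c i)
    (hl : ∀ i ≤ m, 0 ≤ S l i) :
    c (m-1) * S l m ≤ ∑ i ∈ range m, c i * l i := by
  have : ∀ k, k + 1 ≤ m → c k * S l (k+1) ≤ ∑ i ∈ range (k+1), c i * l i := by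
    intro k
    induction k with
    | zero => intro _; simp [S]
    | succ k ih =>
      intro hk
      have h1 := ih (by omega)
      rw [sum_range_succ, S_succ]
      have h2 := hc k (by omega)
      have h3 := hl (k+1) (by omega)
      nlinarith
  have h := this (m-1) (by omega)
  rwa [Nat.sub_add_cancel hm] at h

/-- Comparison lemma (majorization in the multiplicative sense). -/
lemma comparison {s : ℝ} (hs : 0 ≤ s) {y z : ℕ → ℝ} (hy : ∀ i, 0 < y i) (hz : ∀ i, 0 < z i)
    (hya : ∀ i, y (i+1) ≤ y i) {m : ℕ} (hm : 0 < m)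
    (hprod : ∀ i ≤ m, P y i ≤ P z i) :
    s * S y m + E y m ≤ s * S z m + E z m ∧
    (0 < s + S y (m-1) → P y m < P z m → s * S y m + E y m < s * S z m + E z m) := by
  have hL : ∀ i, S (fun l => Real.log (z l / y l)) i = Real.log (P z i / P y i) := by
    intro i
    rw [S, ← Real.log_prod (fun j _ => (div_pos (hz j) (hy j)).ne'), P, P, prod_div_distrib]
  have hL0 : ∀ i ≤ m, 0 ≤ S (fun l => Real.log (z l / y l)) i := by
    intro i hi
    rw [hL]
    apply Real.log_nonneg
    rw [le_div_iff₀ (P_pos hy i), one_mul]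
    exact hprod i hi
  have hcv := convex_log hs hy hz m
  have hab := abel (c := fun i => y i * (s + S y m - y i)) (l := fun l => Real.log (z l / y l)) hm
    (by
      intro i hi
      have h1 : S y (i+2) ≤ S y m := S_mono hy (by omega)
      rw [S_succ, S_succ] at h1
      have h2 := S_nonneg hy i
      have h3 := hya i
      have h4 : 0 ≤ (y i - y (i+1)) * (s + S y m - y i - y (i+1)) :=
        mul_nonneg (by linarith) (by linarith)
      nlinarith) hL0
  have e : S y m = S y (m-1) + y (m-1) := by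
    conv_lhs => rw [← Nat.sub_add_cancel hm]
    rw [S_succ]
  have hc : y (m-1) * (s + S y m - y (m-1)) = y (m-1) * (s + S y (m-1)) := by rw [e]; ring
  simp only [hc] at hab
  have hc0 : 0 ≤ y (m-1) * (s + S y (m-1)) :=
    mul_nonneg (hy _).le (add_nonneg hs (S_nonneg hy _))
  refine ⟨?_, ?_⟩
  · have := mul_nonneg hc0 (hL0 m le_rfl)
    linarith
  · intro h1 h2
    have h3 : 0 < y (m-1) * (s + S y (m-1)) := mul_pos (hy _) h1
    have h4 : 0 < S (fun l => Real.log (z l / y l)) m := by
      rw [hL]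
      apply Real.log_pos
      rw [lt_div_iff₀ (P_pos hy m), one_mul]
      exact h2
    have := mul_pos h3 h4
    linarith

/-! ### The extremal sequence -/

/-- pairs `(∏ v, (∏ v) * Σ 1/v)` -/
def PQ : ℕ → ℕ × ℕ
  | 0 => (1, 0)
  | k+1 => ((PQ k).1 * (1 + (PQ k).2), (1 + (PQ k).2) * (PQ k).2 + (PQ k).1)

/-- the extremal sequence `1, 2, 4, 15, 219, ...` (0-indexed) -/
def v (k : ℕ) : ℕ := 1 + (PQ k).2

lemma v_pos (k : ℕ) : 0 < v k := by unfold v; omega

noncomputable def z (k : ℕ) : ℝ := 1 / (v k : ℝ)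
noncomputable def vr (k : ℕ) : ℝ := (v k : ℝ)

lemma vr_pos (k : ℕ) : 0 < vr k := by unfold vr; exact_mod_cast v_pos k
lemma z_pos (k : ℕ) : 0 < z k := by unfold z; have := vr_pos k; unfold vr at this; positivity

lemma PQ_fst (k : ℕ) : ((PQ k).1 : ℝ) = P vr k := by
  induction k with
  | zero => simp [PQ, P]
  | succ k ih =>
    rw [P_succ, ← ih]
    simp [PQ, vr, v]

lemma PQ_snd (k : ℕ) : ((PQ k).2 : ℝ) = P vr k * S z k := by
  induction k with
  | zero => simp [PQ, S]
  | succ k ih =>
    rw [P_succ, S_succ]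
    have h1 : vr k = 1 + ((PQ k).2 : ℝ) := by simp [vr, v]
    have h2 : z k = 1 / vr k := rfl
    have h3 := (vr_pos k).ne'
    have h4 : ((PQ (k+1)).2 : ℝ) = vr k * ((PQ k).2 : ℝ) + ((PQ k).1 : ℝ) := by
      rw [h1]; simp [PQ]
    rw [h4, ih, PQ_fst, h2]
    field_simp

lemma vr_eq (k : ℕ) : vr k - 1 = P vr k * S z k := by
  rw [← PQ_snd]; simp [vr, v]

lemma one_sub_E_z (k : ℕ) : 1 - E z k = 1 / P vr k := by
  induction k with
  | zero => simp [E, P]
  | succ k ih =>
    rw [E_succ, P_succ]
    have h1 := vr_eq k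
    have h2 : z k = 1 / vr k := rfl
    have h3 := (vr_pos k).ne'
    have h4 := (P_pos vr_pos k).ne'
    have h5 : 1 - (E z k + z k * S z k) = 1 / P vr k - S z k / vr k := by
      rw [← ih, h2]; ring
    rw [h5]
    field_simp
    linarith

lemma PQ_mono1 (k : ℕ) : (PQ k).1 ≤ (PQ (k+1)).1 := by
  simp only [PQ]; nlinarith [Nat.zero_le ((PQ k).1 * (PQ k).2)]

lemma PQ_mono2 (k : ℕ) : (PQ k).2 ≤ (PQ (k+1)).2 := by
  simp only [PQ]; nlinarith [Nat.zero_le ((PQ k).2 * (PQ k).2)]

lemma v_mono : Monotone v := by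
  apply monotone_nat_of_le_succ
  intro k
  have := PQ_mono2 k
  unfold v; omega

lemma v_ge_four {k : ℕ} (hk : 2 ≤ k) : 4 ≤ v k :=
  le_trans (by decide) (v_mono hk)

/-- the block sum of `z` is less than `1/(v_i - 1)` -/
lemma z_block {i m : ℕ} (hi : 1 ≤ i) : S (fun l => z (i+l)) m < 1 / (vr i - 1) := by
  have h1 := one_sub_E_z (i+m)
  rw [E_add] at h1
  have h2 := one_sub_E_z i
  have h3 : 0 < 1 / P vr (i+m) := by have := P_pos vr_pos (i+m); positivity
  have h4 : 0 ≤ E (fun l => z (i+l)) m :=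
    sum_nonneg (fun j _ => mul_nonneg (z_pos _).le (S_nonneg (fun l => z_pos (i+l)) j))
  have h5 : S z i * S (fun l => z (i+l)) m < 1 / P vr i := by linarith
  have h6 := vr_eq i
  have h7 := S_pos z_pos hi
  have h8 := P_pos vr_pos i
  rw [h6]
  rw [lt_div_iff₀ (by positivity)]
  rw [lt_div_iff₀ h8] at h5
  nlinarith

/-! ### Elementary bounds for blocks -/

lemma block_lower {w : ℕ → ℝ} (hw : ∀ l, 0 < w l) {a : ℝ} (ha : ∀ l, w l ≤ a) (m : ℕ) :
    S w m * (S w m - a) / 2 ≤ E w m := by
  induction m with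
  | zero => simp [S_zero, E_zero]
  | succ m ih =>
    rw [S_succ, E_succ]
    have h1 := hw m
    have h2 := ha m
    nlinarith [mul_nonneg h1.le (sub_nonneg.mpr h2)]

lemma block_lower' {w : ℕ → ℝ} (hw : ∀ l, 0 < w l) (m : ℕ) :
    w 0 * (S w (m+1) - w 0) ≤ E w (m+1) := by
  induction m with
  | zero => simp [S, E]
  | succ m ih =>
    rw [S_succ, E_succ]
    have h1 := hw (m+1)
    have h2 : w 0 ≤ S w (m+1) := by
      have := S_mono hw (show 1 ≤ m+1 by omega)
      simpa [S] using this
    nlinarith [mul_nonneg h1.le (sub_nonneg.mpr h2)]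

lemma block_upper {w : ℕ → ℝ} (m : ℕ) : 2 * E w m ≤ S w m ^ 2 := by
  induction m with
  | zero => simp [S_zero, E_zero]
  | succ m ih =>
    rw [S_succ, E_succ]
    nlinarith [sq_nonneg (w m)]

lemma ineq1 {v d : ℝ} (hv : 4 ≤ v) (hd0 : 0 ≤ d) (hd : d ≤ 1 / (v * (v - 1))) :
    1 / v * d + d ^ 2 / 2 ≤ 1 / (v + 1) * (1 / v + d - 1 / (v + 1)) := by
  have hv1 : 0 < v - 1 := by linarith
  have hv0 : 0 < v := by linarith
  have hv2 : 0 < v + 1 := by linarith
  have e : 1 / (v + 1) * (1 / v + d - 1 / (v + 1)) - (1 / v * d + d ^ 2 / 2)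
      = 1 / (v * (v + 1) ^ 2) - (d * (1 / (v * (v + 1))) + d ^ 2 / 2) := by
    field_simp
    ring
  have h1 : d * (1 / (v * (v + 1))) ≤ 1 / (v * (v - 1)) * (1 / (v * (v + 1))) :=
    mul_le_mul_of_nonneg_right hd (by positivity)
  have h2 : d ^ 2 ≤ (1 / (v * (v - 1))) ^ 2 := pow_le_pow_left₀ hd0 hd 2
  have h3 : 1 / (v * (v - 1)) * (1 / (v * (v + 1))) + (1 / (v * (v - 1))) ^ 2 / 2
      ≤ 1 / (v * (v + 1) ^ 2) := by
    have e2 : 1 / (v * (v + 1) ^ 2) - (1 / (v * (v - 1)) * (1 / (v * (v + 1)))
        + (1 / (v * (v - 1))) ^ 2 / 2)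
        = (2 * v ^ 3 - 7 * v ^ 2 + 1) / (2 * v ^ 2 * (v + 1) ^ 2 * (v - 1) ^ 2) := by
      field_simp
      ring
    have h4 : 0 ≤ 2 * v ^ 3 - 7 * v ^ 2 + 1 := by nlinarith [mul_nonneg (sub_nonneg.mpr hv) (sq_nonneg v)]
    have h5 : 0 ≤ (2 * v ^ 3 - 7 * v ^ 2 + 1) / (2 * v ^ 2 * (v + 1) ^ 2 * (v - 1) ^ 2) := by
      positivity
    linarith
  linarith

lemma ineq2 {v d : ℝ} (hv : 4 ≤ v) (hd0 : 0 ≤ d) (hd : d ≤ 1 / (v * (v - 1))) :
    1 / v * d + d ^ 2 / 2 ≤ (1 / v + d) ^ 2 / 4 := by
  have hv1 : 0 < v - 1 := by linarith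
  have hv0 : 0 < v := by linarith
  have h1 : d ≤ 1 / v / 3 := by
    refine hd.trans ?_
    rw [div_div]
    apply one_div_le_one_div_of_le (by positivity)
    nlinarith
  have h2 : 0 ≤ 1 / v := by positivity
  nlinarith [mul_nonneg hd0 h2, mul_nonneg hd0 hd0, mul_nonneg h2 h2]

section main

variable {x : ℕ → ℕ}

/-- reciprocals -/
noncomputable def y (x : ℕ → ℕ) (i : ℕ) : ℝ := 1 / (x i : ℝ)
/-- cast -/
noncomputable def X (x : ℕ → ℕ) (i : ℕ) : ℝ := (x i : ℝ)

lemma X_pos (hx : ∀ i, 0 < x i) (i : ℕ) : 0 < X x i := by unfold X; exact_mod_cast hx i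
lemma y_pos (hx : ∀ i, 0 < x i) (i : ℕ) : 0 < y x i := by
  have := X_pos hx i; unfold X at this; unfold y; positivity
lemma y_anti (hx : ∀ i, 0 < x i) (hm : Monotone x) {i j : ℕ} (h : i ≤ j) : y x j ≤ y x i := by
  unfold y
  exact one_div_le_one_div_of_le (X_pos hx i) (by exact_mod_cast hm h)

lemma P_inv (f : ℕ → ℝ) (k : ℕ) : P (fun i => 1 / f i) k = 1 / P f k := by
  simp [P, prod_inv_distrib]

lemma P_y (k : ℕ) : P (y x) k = 1 / P (X x) k := P_inv (X x) k
lemma P_z (k : ℕ) : P z k = 1 / P vr k := P_inv vr k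

lemma integrality (hx : ∀ i, 0 < x i) (k : ℕ) :
    (∃ N : ℤ, P (X x) k * (1 - E (y x) k) = N) ∧ (∃ M : ℤ, P (X x) k * S (y x) k = M) := by
  induction k with
  | zero => exact ⟨⟨1, by simp [P, E]⟩, ⟨0, by simp [S]⟩⟩
  | succ k ih =>
    obtain ⟨⟨N, hN⟩, ⟨M, hM⟩⟩ := ih
    have h0 := (X_pos hx k).ne'
    have hy : y x k = 1 / X x k := rfl
    refine ⟨⟨x k * N - M, ?_⟩, ⟨x k * M + (∏ i ∈ range k, (x i : ℤ)), ?_⟩⟩
    · rw [P_succ, E_succ]
      push_cast
      rw [← hN, ← hM, hy]
      change _ = X x k * _ - _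
      field_simp
      ring
    · rw [P_succ, S_succ]
      push_cast
      rw [← hM, hy]
      change _ = X x k * _ + P (X x) k
      field_simp

lemma frac_lower (hx : ∀ i, 0 < x i) {k : ℕ} (h : 0 < 1 - E (y x) k) :
    1 / P (X x) k ≤ 1 - E (y x) k := by
  obtain ⟨⟨N, hN⟩, -⟩ := integrality hx k
  have hP := P_pos (X_pos hx) k
  have h1 : (0:ℝ) < N := by rw [← hN]; positivity
  have h2 : (1:ℝ) ≤ N := by exact_mod_cast (Int.cast_pos.mp h1 : 0 < N)
  rw [div_le_iff₀ hP, mul_comm, hN]
  exact h2

/-- If `e₂(y) ≤ e₂(z)` then `e₁(y) ≤ e₁(z)`. -/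
lemma sum_le_of_E_le (hx : ∀ i, 0 < x i) (hm : Monotone x) {k : ℕ} (h : E (y x) k ≤ E z k) :
    S (y x) k ≤ S z k := by
  classical
  by_contra hlt
  push Not at hlt
  have hne : ∃ i, i < k ∧ x i ≠ v i := by
    by_contra hcon
    push Not at hcon
    have : S (y x) k = S z k := S_congr (fun i hi => by simp [y, z, hcon i hi])
    linarith
  obtain ⟨hik, hxi⟩ := Nat.find_spec hne
  have hmin : ∀ j < Nat.find hne, x j = v j := by
    intro j hj
    have := Nat.find_min hne hj
    push Not at this
    exact this (hj.trans hik)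
  generalize Nat.find hne = i at hik hxi hmin
  have hy0 : ∀ j < i, y x j = z j := fun j hj => by simp [y, z, hmin j hj]
  obtain ⟨m, rfl⟩ : ∃ m, k = i + (m + 1) := ⟨k - i - 1, by omega⟩
  have hEz1 : E z (i + (m+1)) < 1 := by
    have := one_sub_E_z (i + (m+1))
    have h2 := P_pos vr_pos (i + (m+1))
    have : 0 < 1 - E z (i + (m+1)) := by rw [this]; positivity
    linarith
  -- x i ≥ v i + 1
  have hxi2 : v i + 1 ≤ x i := by
    have h1 : v i ≤ x i := by
      rcases Nat.eq_zero_or_pos i with rfl | hi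
      · have : v 0 = 1 := rfl
        rw [this]; exact hx 0
      · have h2 : E (y x) (i+1) ≤ E (y x) (i + (m+1)) := E_mono (y_pos hx) (by omega)
        have h3 : 0 < 1 - E (y x) (i+1) := by linarith
        rw [E_succ, E_congr hy0, S_congr hy0] at h3
        have h4 := one_sub_E_z i
        have h5 : y x i * S z i < 1 / P vr i := by linarith
        have h6 := P_pos vr_pos i
        have h7 := vr_eq i
        have h8 := X_pos hx i
        have h9 : y x i = 1 / X x i := rfl
        rw [h9, lt_div_iff₀ h6, div_mul_eq_mul_div, div_mul_eq_mul_div, div_lt_one h8] at h5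
        have h10 : vr i - 1 < X x i := by linarith
        have h11 : (v i : ℝ) < (x i : ℝ) + 1 := by unfold vr X at h10; linarith
        have h12 : v i < x i + 1 := by exact_mod_cast h11
        omega
    omega
  have hyl : ∀ l, y x (i+l) ≤ 1 / (vr i + 1) := by
    intro l
    unfold y
    apply one_div_le_one_div_of_le (by have := vr_pos i; linarith)
    have h1 : x i ≤ x (i+l) := hm (by omega)
    have h2 : v i + 1 ≤ x (i+l) := by omega
    unfold vr
    exact_mod_cast h2
  have hwpos : ∀ l, 0 < (fun l => y x (i+l)) l := fun l => y_pos hx _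
  rw [E_add (y x) i (m+1), E_add z i (m+1), E_congr hy0, S_congr hy0] at h
  rw [S_add z i (m+1), S_add (y x) i (m+1), S_congr hy0] at hlt
  rw [E_add z i (m+1)] at hEz1
  set s := S (fun l => y x (i+l)) (m+1) with hs
  set sz := S (fun l => z (i+l)) (m+1) with hsz
  set e := E (fun l => y x (i+l)) (m+1) with he
  set ez := E (fun l => z (i+l)) (m+1) with hez
  have hss : sz < s := by linarith
  have hlow : s * (s - 1 / (vr i + 1)) / 2 ≤ e := block_lower hwpos hyl (m+1)
  have hezn : 0 ≤ ez := sum_nonneg (fun j _ => mul_nonneg (z_pos _).le (S_nonneg (fun l => z_pos (i+l)) j))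
  rcases Nat.lt_or_ge i 2 with hi2 | hi2
  · -- i = 0 or i = 1
    have hv0 : vr 0 = 1 := by simp [vr, v, PQ]
    have hv1 : vr 1 = 2 := by simp [vr, v, PQ]
    have hz0 : z 0 = 1 := by simp [z, v, PQ]
    have hz1 : z 1 = 1 / 2 := by norm_num [z, v, PQ]
    have hz2 : z 2 = 1 / 4 := by norm_num [z, v, PQ]
    have hz3 : z 3 = 1 / 15 := by norm_num [z, v, PQ]
    have hsl : s ≤ (m+1) * (1 / (vr i + 1)) := by
      rw [hs, S]
      refine (sum_le_sum (fun l _ => hyl l)).trans ?_
      simp
    interval_cases i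
    · -- i = 0
      rw [hv0] at hsl hlow
      have hE0 : E z 0 = 0 := E_zero z
      have hS0 : S z 0 = 0 := S_zero z
      rw [hE0, hS0] at h hEz1
      rcases Nat.lt_or_ge m 3 with hm3 | hm3
      · interval_cases m
        · have : sz = 1 := by rw [hsz]; simp [S, hz0]
          norm_num at hsl
          linarith
        · have : sz = 3/2 := by rw [hsz]; simp [S, sum_range_succ, hz0, hz1]; norm_num
          norm_num at hsl
          linarith
        · have : sz = 7/4 := by rw [hsz]; simp [S, sum_range_succ, hz0, hz1, hz2]; norm_num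
          norm_num at hsl
          linarith
      · have h4 : S (fun l => z (0+l)) 4 ≤ sz := by
          rw [hsz]; exact S_mono (fun l => z_pos (0+l)) (show 4 ≤ m + 1 by omega)
        have h5 : S (fun l => z (0+l)) 4 = 109/60 := by
          simp [S, sum_range_succ, hz0, hz1, hz2, hz3]; norm_num
        have h6 : (109:ℝ)/60 < s := by linarith
        nlinarith
    · -- i = 1
      rw [hv1] at hsl hlow
      have hE0 : E z 1 = 0 := by simp [E, S]
      have hS0 : S z 1 = 1 := by simp [S, hz0]
      rw [hE0, hS0] at h hEz1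
      rcases Nat.lt_or_ge m 2 with hm3 | hm3
      · interval_cases m
        · have : sz = 1/2 := by rw [hsz]; simp [S, hz1]
          norm_num at hsl
          linarith
        · have : sz = 3/4 := by rw [hsz]; simp [S, sum_range_succ, hz1, hz2]; norm_num
          norm_num at hsl
          linarith
      · have h4 : S (fun l => z (1+l)) 3 ≤ sz := by
          rw [hsz]; exact S_mono (fun l => z_pos (1+l)) (show 3 ≤ m + 1 by omega)
        have h5 : S (fun l => z (1+l)) 3 = 49/60 := by
          simp [S, sum_range_succ, hz1, hz2, hz3]; norm_num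
        have h6 : (49:ℝ)/60 < s := by linarith
        nlinarith
  · -- i ≥ 2
    have hv4 : 4 ≤ vr i := by unfold vr; exact_mod_cast v_ge_four hi2
    have hzi : z i = 1 / vr i := rfl
    have hsz1 : sz < 1 / (vr i - 1) := z_block (by omega)
    -- the rest of the `z` block
    set d := S (fun l => z (i+(1+l))) m with hd
    have hszd : sz = 1 / vr i + d := by
      rw [hsz, show m + 1 = 1 + m by ring, S_add]
      simp [S, ← hzi, hd]
    have hd0 : 0 ≤ d := S_nonneg (fun l => z_pos _) m
    have hezd : ez ≤ 1 / vr i * d + d ^ 2 / 2 := by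
      have h1 : ez = 1 / vr i * d + E (fun l => z (i+(1+l))) m := by
        rw [hez, show m + 1 = 1 + m by ring, E_add]
        simp [S, E, ← hzi, hd]
      have h2 := block_upper (w := fun l => z (i+(1+l))) m
      rw [h1]; linarith
    have hdd : d ≤ 1 / (vr i * (vr i - 1)) := by
      have h1 : d < 1 / (vr i - 1) - 1 / vr i := by linarith
      have h2 : 1 / (vr i - 1) - 1 / vr i = 1 / (vr i * (vr i - 1)) := by
        have h3 : vr i ≠ 0 := by linarith
        have h4 : vr i - 1 ≠ 0 := by linarith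
        field_simp
        ring
      linarith
    have hez : ez ≤ e := by
      rcases le_or_gt (s / 2) (y x i) with hc | hc
      · have h1 := ineq1 hv4 hd0 hdd
        have h2 : y x i * (s - y x i) ≤ e := block_lower' hwpos m
        have h3 := hyl 0
        rw [add_zero] at h3
        have h4 : 1 / (vr i + 1) * (s - 1 / (vr i + 1)) ≤ y x i * (s - y x i) := by
          nlinarith [mul_nonneg (sub_nonneg.mpr h3) (show 0 ≤ 1 / (vr i + 1) + y x i - s by linarith)]
        have h5 : 1 / (vr i + 1) * (1 / vr i + d - 1 / (vr i + 1))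
            ≤ 1 / (vr i + 1) * (s - 1 / (vr i + 1)) :=
          mul_le_mul_of_nonneg_left (by linarith) (by positivity)
        linarith
      · have h1 := ineq2 hv4 hd0 hdd
        have h2 : s * (s - y x i) / 2 ≤ e :=
          block_lower hwpos (fun l => y_anti hx hm (by omega)) (m+1)
        have h3 : 0 < 1 / vr i := by positivity
        have h4 : (1 / vr i + d) ^ 2 / 4 ≤ s ^ 2 / 4 := by
          have : (1 / vr i + d) ^ 2 ≤ s ^ 2 := pow_le_pow_left₀ (by linarith) (by linarith) 2
          linarith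
        nlinarith [mul_pos (show 0 < s by linarith) (show 0 < s / 2 - y x i by linarith)]
    have h1 := S_pos z_pos (show 0 < i by omega)
    nlinarith [mul_pos h1 (sub_pos.mpr hss)]

/-- the block comparison shared by the two uses -/
lemma prod_shift (f : ℕ → ℝ) (hf : ∀ i, 0 < f i) (k i : ℕ) :
    P (fun l => f (k+l)) i = P f (k+i) / P f k := by
  rw [P_add]
  have := (P_pos hf k).ne'
  field_simp

/-- the key inequality: a positive `f_k` is at least `1/V_k`. -/
lemma frac_ge (hx : ∀ i, 0 < x i) (hm : Monotone x) (k : ℕ) :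
    0 < 1 - E (y x) k → 1 / P vr k ≤ 1 - E (y x) k := by
  induction k using Nat.strong_induction_on with
  | _ k ih =>
    intro hf
    rcases le_or_gt (P (X x) k) (P vr k) with hle | hgt
    · exact (one_div_le_one_div_of_le (P_pos (X_pos hx) k) hle).trans (frac_lower hx hf)
    · -- the last index `j < k` with `P_j ≤ V_j`
      classical
      obtain ⟨j, hj1, hj2, hj4⟩ : ∃ j, P (X x) j ≤ P vr j ∧ j ≤ k ∧
          ∀ i, j < i → i ≤ k → P vr i < P (X x) i := by
        refine ⟨Nat.findGreatest (fun j => P (X x) j ≤ P vr j) k, ?_, Nat.findGreatest_le k, ?_⟩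
        · exact Nat.findGreatest_spec (P := fun j => P (X x) j ≤ P vr j) (Nat.zero_le k)
            (by simp [P_zero])
        · intro i h1 h2
          have := Nat.findGreatest_is_greatest (P := fun j => P (X x) j ≤ P vr j) h1 h2
          exact not_le.mp this
      have hj3 : j ≠ k := fun h => by rw [h] at hj1; linarith
      have hjk : j < k := lt_of_le_of_ne hj2 hj3
      have hEj : E (y x) j ≤ E (y x) k := E_mono (y_pos hx) hj2
      have hfj : 0 < 1 - E (y x) j := by linarith
      have hjj := ih j hjk hfj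
      have hc : S (y x) j ≤ S z j := sum_le_of_E_le hx hm (by
        have := one_sub_E_z j; linarith)
      obtain ⟨m, rfl⟩ : ∃ m, k = j + m := ⟨k - j, by omega⟩
      have hm0 : 0 < m := by omega
      have hcmp := (comparison (s := S (y x) j) (y := fun l => y x (j+l)) (z := fun l => z (j+l))
        (m := m) (S_nonneg (y_pos hx) j) (fun l => y_pos hx _) (fun l => z_pos _)
        (fun l => y_anti hx hm (by omega)) hm0 (by
          intro i hi
          rw [prod_shift (y x) (y_pos hx), prod_shift z z_pos, P_y, P_y, P_z, P_z]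
          have h1 := P_pos (X_pos hx) j
          have h2 := P_pos (X_pos hx) (j+i)
          have h3 := P_pos vr_pos j
          have h4 := P_pos vr_pos (j+i)
          rcases Nat.eq_zero_or_pos i with rfl | hi0
          · simp only [add_zero]
            rw [div_self (by positivity), div_self (by positivity)]
          · have h5 := hj4 (j+i) (by omega) (by omega)
            have e1 : 1 / P (X x) (j+i) / (1 / P (X x) j) = P (X x) j / P (X x) (j+i) := by
              field_simp
            have e2 : 1 / P vr (j+i) / (1 / P vr j) = P vr j / P vr (j+i) := by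
              field_simp
            rw [e1, e2]
            exact div_le_div₀ h3.le hj1 h4 h5.le)).1
      have h1 := one_sub_E_z (j+m)
      rw [E_add] at h1
      have h2 := one_sub_E_z j
      rw [E_add]
      have h3 : 0 ≤ S (fun l => z (j+l)) m := S_nonneg (fun l => z_pos (j+l)) m
      nlinarith [mul_le_mul_of_nonneg_right hc h3]

/-- Main inequality. -/
theorem main (hx : ∀ i, 0 < x i) (hm : Monotone x) {n : ℕ} (hn : 2 ≤ n)
    (h : E (y x) n = 1) : P (X x) n ≤ P vr (n-1) * (vr (n-1) - 1) := by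
  by_contra hgt
  push Not at hgt
  obtain ⟨N, rfl⟩ : ∃ N, n = N + 1 := ⟨n - 1, by omega⟩
  have hN : 1 ≤ N := by omega
  simp only [Nat.add_sub_cancel] at hgt
  have hvN : 2 ≤ vr N := by
    have : 2 ≤ v N := le_trans (by decide) (v_mono hN)
    unfold vr; exact_mod_cast this
  classical
  -- the modified extremal sequence
  set z' : ℕ → ℝ := fun i => if i = N then 1 / (vr N - 1) else z i with hz'
  have hz'pos : ∀ i, 0 < z' i := by
    intro i
    simp only [hz']
    split_ifs
    · have : 0 < vr N - 1 := by linarith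
      positivity
    · exact z_pos i
  have hz'lt : ∀ i < N, z' i = z i := fun i hi => by simp [hz', hi.ne]
  have hz'N : z' N = 1 / (vr N - 1) := by simp [hz']
  have hEz' : E z' (N+1) = 1 := by
    rw [E_succ, E_congr hz'lt, S_congr hz'lt, hz'N]
    have h1 := one_sub_E_z N
    have h2 := vr_eq N
    have h3 := P_pos vr_pos N
    have h4 := S_pos z_pos (show 0 < N by omega)
    rw [h2]
    have h5 : 1 / (P vr N * S z N) * S z N = 1 / P vr N := by field_simp
    linarith
  set k := Nat.findGreatest (fun j => P (X x) j ≤ P vr j) N with hk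
  have hk1 : P (X x) k ≤ P vr k :=
    Nat.findGreatest_spec (P := fun j => P (X x) j ≤ P vr j) (Nat.zero_le N) (by simp [P_zero])
  have hk2 : k ≤ N := Nat.findGreatest_le N
  have hk4 : ∀ i, k < i → i ≤ N → P vr i < P (X x) i := by
    intro i h1 h2
    have := Nat.findGreatest_is_greatest (P := fun j => P (X x) j ≤ P vr j) h1 h2
    exact not_le.mp this
  obtain ⟨m, hmk⟩ : ∃ m, N + 1 = k + (m + 1) := ⟨N - k, by omega⟩
  have hPz' : ∀ i ≤ N, P z' i = 1 / P vr i := by
    intro i hi
    rw [P_congr (fun l hl => hz'lt l (by omega)), P_z]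
  have hPz'N : P z' (N+1) = 1 / (P vr N * (vr N - 1)) := by
    rw [P_succ, hPz' N le_rfl, hz'N]
    rw [div_mul_div_comm, one_mul]
  have hXk := P_pos (X_pos hx) k
  have hvk := P_pos vr_pos k
  have hlast : P (fun l => y x (k+l)) (m+1) < P (fun l => z' (k+l)) (m+1) := by
    rw [prod_shift (y x) (y_pos hx), prod_shift z' hz'pos, ← hmk, P_y, P_y, hPz' k hk2, hPz'N]
    have h2 := P_pos (X_pos hx) (N+1)
    have h3 := P_pos vr_pos N
    have h4 : 0 < P vr N * (vr N - 1) := mul_pos h3 (by linarith)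
    have e1 : 1 / P (X x) (N+1) / (1 / P (X x) k) = P (X x) k / P (X x) (N+1) := by
      field_simp
    have e2 : 1 / (P vr N * (vr N - 1)) / (1 / P vr k) = P vr k / (P vr N * (vr N - 1)) := by
      field_simp
    rw [e1, e2, div_lt_div_iff₀ h2 h4]
    nlinarith [mul_le_mul_of_nonneg_right hk1 h4.le, mul_lt_mul_of_pos_left hgt hvk]
  have hcmp := (comparison (s := S (y x) k) (y := fun l => y x (k+l)) (z := fun l => z' (k+l))
    (m := m+1) (S_nonneg (y_pos hx) k) (fun l => y_pos hx _) (fun l => hz'pos _)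
    (fun l => y_anti hx hm (by omega)) (by omega) (by
      intro i hi
      rcases Nat.lt_or_ge i (m+1) with hi2 | hi2
      · rw [prod_shift (y x) (y_pos hx), prod_shift z' hz'pos, P_y, P_y, hPz' k hk2,
          hPz' (k+i) (by omega)]
        have h2 := P_pos (X_pos hx) (k+i)
        have h4 := P_pos vr_pos (k+i)
        rcases Nat.eq_zero_or_pos i with rfl | hi0
        · simp only [add_zero]
          rw [div_self (by positivity), div_self (by positivity)]
        · have h5 := hk4 (k+i) (by omega) (by omega)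
          have e1 : 1 / P (X x) (k+i) / (1 / P (X x) k) = P (X x) k / P (X x) (k+i) := by
            field_simp
          have e2 : 1 / P vr (k+i) / (1 / P vr k) = P vr k / P vr (k+i) := by
            field_simp
          rw [e1, e2]
          exact div_le_div₀ hvk.le hk1 h4 h5.le
      · have : i = m + 1 := by omega
        rw [this]
        exact hlast.le)).2 (by
          have h1 := S_nonneg (y_pos hx) k
          have h2 := S_nonneg (f := fun l => y x (k+l)) (fun l => y_pos hx _) (m + 1 - 1)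
          rcases Nat.eq_zero_or_pos k with hk0 | hk0
          · have h3 : 0 < S (fun l => y x (k+l)) (m + 1 - 1) :=
              S_pos (fun l => y_pos hx _) (by omega)
            linarith
          · have h3 := S_pos (y_pos hx) hk0
            linarith) hlast
  have e1 : E (y x) (N+1) = E (y x) k
      + (S (y x) k * S (fun l => y x (k+l)) (m+1) + E (fun l => y x (k+l)) (m+1)) := by
    rw [hmk, E_add]
  have e2 : E z' (N+1) = E z' k
      + (S z' k * S (fun l => z' (k+l)) (m+1) + E (fun l => z' (k+l)) (m+1)) := by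
    rw [hmk, E_add]
  rw [E_congr (f := z') (k := k) (fun i hi => hz'lt i (by omega)),
    S_congr (f := z') (k := k) (fun i hi => hz'lt i (by omega))] at e2
  have hz1 := one_sub_E_z k
  -- positivity of `f_k`
  have hpos : 0 < 1 - E (y x) k := by
    have h1 : 0 < S (y x) k * S (fun l => y x (k+l)) (m+1) + E (fun l => y x (k+l)) (m+1) := by
      have h5 : 0 ≤ E (fun l => y x (k+l)) (m+1) :=
        sum_nonneg (fun j _ => mul_nonneg (y_pos hx _).le (S_nonneg (fun l => y_pos hx (k+l)) j))
      rcases Nat.eq_zero_or_pos k with hk0 | hk0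
      · have h2 := S_nonneg (y_pos hx) k
        have h3 : 0 < S (fun l => y x (k+l)) m := S_pos (fun l => y_pos hx _) (by omega)
        have h4 : 0 ≤ E (fun l => y x (k+l)) m :=
          sum_nonneg (fun j _ => mul_nonneg (y_pos hx _).le (S_nonneg (fun l => y_pos hx (k+l)) j))
        rw [E_succ]
        have h6 : 0 < S (fun l => y x (k+l)) (m+1) := S_pos (fun l => y_pos hx _) (by omega)
        have h7 := y_pos hx (k+m)
        have h8 := mul_nonneg h2 h6.le
        have h9 := mul_pos h7 h3
        linarith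
      · have h2 := S_pos (y_pos hx) hk0
        have h6 : 0 < S (fun l => y x (k+l)) (m+1) := S_pos (fun l => y_pos hx _) (by omega)
        have := mul_pos h2 h6
        linarith
    linarith
  have hge := frac_ge hx hm k hpos
  have hc : S (y x) k ≤ S z k := sum_le_of_E_le hx hm (by linarith)
  have h6 : 0 < S (fun l => z' (k+l)) (m+1) := S_pos (fun l => hz'pos _) (by omega)
  nlinarith [mul_le_mul_of_nonneg_right hc h6.le]

end main

/-! ### Translation to the elementary symmetric functions -/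

lemma E_eq_powersetCard (f : ℕ → ℝ) (n : ℕ) :
    E f n = ∑ t ∈ powersetCard 2 (range n), ∏ i ∈ t, f i := by
  induction n with
  | zero =>
    rw [range_zero, powersetCard_eq_empty.mpr (by simp), sum_empty, E_zero]
  | succ n ih =>
    rw [E_succ, range_add_one, powersetCard_succ_insert notMem_range_self, sum_union, ih]
    · congr 1
      rw [sum_image, powersetCard_one, sum_map, S, mul_sum]
      · refine sum_congr rfl (fun i hi => ?_)
        rw [mem_range] at hi
        have : n ∉ ({i} : Finset ℕ) := by simp; omega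
        simp only [Function.Embedding.coeFn_mk]
        rw [prod_insert this, prod_singleton]
      · intro a ha b hb hab
        rw [mem_coe, powersetCard_one, mem_map] at ha hb
        obtain ⟨i, hi, rfl⟩ := ha
        obtain ⟨j, hj, rfl⟩ := hb
        rw [mem_range] at hi hj
        simp only [Function.Embedding.coeFn_mk] at hab ⊢
        have hi' : n ∉ ({i} : Finset ℕ) := by simp; omega
        have hj' : n ∉ ({j} : Finset ℕ) := by simp; omega
        rw [← erase_insert hi', ← erase_insert hj', hab]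
    · rw [disjoint_left]
      intro t ht ht2
      rw [mem_powersetCard] at ht
      rw [mem_image] at ht2
      obtain ⟨u, -, rfl⟩ := ht2
      have : n ∈ range n := ht.1 (mem_insert_self n u)
      simp at this

/-- complementation of the top-degree symmetric function -/
lemma E_one_of_sigma {x : ℕ → ℕ} (hx : ∀ i, 0 < x i) {n : ℕ} (hn : 2 ≤ n)
    (h : ∑ s ∈ powersetCard (n-2) (range n), ∏ i ∈ s, x i = ∏ i ∈ range n, x i) :
    E (y x) n = 1 := by
  rw [E_eq_powersetCard]
  have hP : P (X x) n ≠ 0 := (P_pos (X_pos hx) n).ne'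
  have h1 : ∑ s ∈ powersetCard (n-2) (range n), ∏ i ∈ s, X x i = P (X x) n := by
    have : ((∑ s ∈ powersetCard (n-2) (range n), ∏ i ∈ s, x i : ℕ) : ℝ)
        = ((∏ i ∈ range n, x i : ℕ) : ℝ) := by rw [h]
    push_cast at this
    exact this
  have h2 : ∑ s ∈ powersetCard (n-2) (range n), ∏ i ∈ s, X x i
      = ∑ t ∈ powersetCard 2 (range n), P (X x) n * ∏ i ∈ t, y x i := by
    refine sum_bij' (fun s _ => range n \ s) (fun t _ => range n \ t) ?_ ?_ ?_ ?_ ?_
    · intro s hs
      rw [mem_powersetCard] at hs ⊢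
      refine ⟨sdiff_subset, ?_⟩
      rw [card_sdiff_of_subset hs.1, card_range, hs.2]; omega
    · intro s hs
      rw [mem_powersetCard] at hs ⊢
      refine ⟨sdiff_subset, ?_⟩
      rw [card_sdiff_of_subset hs.1, card_range, hs.2]
    · intro s hs
      rw [mem_powersetCard] at hs
      exact Finset.sdiff_sdiff_eq_self hs.1
    · intro s hs
      rw [mem_powersetCard] at hs
      exact Finset.sdiff_sdiff_eq_self hs.1
    · intro s hs
      rw [mem_powersetCard] at hs
      have h3 := prod_sdiff (f := X x) hs.1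
      have h4 : (∏ i ∈ range n \ s, X x i) * ∏ i ∈ range n \ s, y x i = 1 := by
        rw [← prod_mul_distrib]
        refine prod_eq_one (fun i _ => ?_)
        have h5 := (X_pos hx i).ne'
        change X x i * (1 / X x i) = 1
        field_simp
      change _ = (∏ i ∈ range n, X x i) * _
      rw [← h3]
      calc ∏ i ∈ s, X x i = ((∏ i ∈ range n \ s, X x i) * ∏ i ∈ range n \ s, y x i)
            * ∏ i ∈ s, X x i := by rw [h4, one_mul]
        _ = _ := by ring
  rw [h2, ← mul_sum] at h1
  exact mul_left_cancel₀ hP (by rw [h1, mul_one])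

/-- the problem's recursion determines the sequence -/
lemma w_eq (w : ℕ → ℚ) (w1 : w 1 = 1) (w2 : w 2 = 2)
    (hw : ∀ n, 2 ≤ n → w (n+1) = 1 + (∑ i ∈ Icc 1 n, 1 / w i) /
      (1 - ∑ j ∈ Icc 1 n, ∑ i ∈ Ico 1 j, 1 / (w i * w j))) (k : ℕ) :
    (w (k+1) : ℝ) = vr k := by
  induction k using Nat.strong_induction_on with
  | _ k ih =>
    rcases Nat.lt_or_ge k 2 with hk | hk
    · interval_cases k
      · rw [w1]; simp [vr, v, PQ]
      · rw [w2]; simp [vr, v, PQ]
    · rw [hw k hk]
      have e1 : ((∑ i ∈ Icc 1 k, 1 / w i : ℚ) : ℝ) = S z k := by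
        rw [← Ico_succ_right_eq_Icc, Nat.succ_eq_succ, sum_Ico_eq_sum_range]
        push_cast
        refine sum_congr (by simp) (fun i hi => ?_)
        rw [mem_range] at hi
        rw [add_comm 1 i, ih i (by omega)]; rfl
      have e2 : ((∑ j ∈ Icc 1 k, ∑ i ∈ Ico 1 j, 1 / (w i * w j) : ℚ) : ℝ) = E z k := by
        rw [← Ico_succ_right_eq_Icc, Nat.succ_eq_succ, sum_Ico_eq_sum_range]
        push_cast
        refine sum_congr (by simp) (fun j hj => ?_)
        rw [mem_range] at hj
        rw [sum_Ico_eq_sum_range, S, mul_sum]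
        refine sum_congr (by simp) (fun i hi => ?_)
        rw [mem_range] at hi
        rw [add_comm 1 i, add_comm 1 j, ih i (by omega), ih j (by omega)]
        change 1 / (vr i * vr j) = 1 / vr j * (1 / vr i)
        rw [div_mul_div_comm, one_mul, mul_comm (vr i)]
      have h3 := one_sub_E_z k
      have h4 := vr_eq k
      rw [Rat.cast_add, Rat.cast_div, Rat.cast_sub, e1, e2, Rat.cast_one, h3]
      have h5 : vr k = 1 + P vr k * S z k := by linarith
      rw [h5]
      have h6 := (P_pos vr_pos k).ne'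
      field_simp

theorem final (w : ℕ → ℚ) (w1 : w 1 = 1) (w2 : w 2 = 2)
    (hw : ∀ n, 2 ≤ n → w (n+1) = 1 + (∑ i ∈ Icc 1 n, 1 / w i) /
      (1 - ∑ j ∈ Icc 1 n, ∑ i ∈ Ico 1 j, 1 / (w i * w j)))
    (n : ℕ) (hn : 2 ≤ n) (x : Fin n → ℕ) (hpos : ∀ i, 1 ≤ x i) (hmono : Monotone x)
    (h : ∑ s ∈ powersetCard (n-2) (univ : Finset (Fin n)), ∏ i ∈ s, x i
      = ∑ s ∈ powersetCard n (univ : Finset (Fin n)), ∏ i ∈ s, x i) :
    ((∏ i, x i : ℕ) : ℚ) ≤ (∏ i ∈ Icc 1 (n-1), w i) * (w n - 1) := by
  classical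
  -- extend `x` to `ℕ`
  set x' : ℕ → ℕ := fun i => if h : i < n then x ⟨i, h⟩ else x ⟨n-1, by omega⟩ with hx'
  have hx'1 : ∀ i : Fin n, x' (i : ℕ) = x i := by intro i; simp [hx']
  have hx'pos : ∀ i, 0 < x' i := by
    intro i
    simp only [hx']
    split_ifs
    · exact hpos _
    · exact hpos _
  have hx'mono : Monotone x' := by
    intro i j hij
    simp only [hx']
    split_ifs with h1 h2 h2
    · exact hmono hij
    · exact hmono (show (⟨i, h1⟩ : Fin n) ≤ ⟨n-1, _⟩ from Nat.le_sub_one_of_lt h1)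
    · omega
    · exact le_rfl
  have hconv : ∀ j, ∑ s ∈ powersetCard j (univ : Finset (Fin n)), ∏ i ∈ s, x i
      = ∑ s ∈ powersetCard j (range n), ∏ i ∈ s, x' i := by
    intro j
    have : (range n) = (univ : Finset (Fin n)).map Fin.valEmbedding := by
      ext a
      simp only [mem_range, mem_map, mem_univ, true_and, Fin.valEmbedding_apply]
      exact ⟨fun h => ⟨⟨a, h⟩, rfl⟩, fun ⟨b, hb⟩ => hb ▸ b.2⟩
    rw [this, powersetCard_map, sum_map]
    refine sum_congr rfl (fun s _ => ?_)
    simp only [RelEmbedding.coe_toEmbedding, mapEmbedding_apply, prod_map, Fin.valEmbedding_apply]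
    exact prod_congr rfl (fun i _ => (hx'1 i).symm)
  have htop : ∑ s ∈ powersetCard n (range n), ∏ i ∈ s, x' i = ∏ i ∈ range n, x' i := by
    have : powersetCard n (range n) = {range n} := by
      have h0 := powersetCard_self (range n)
      rwa [card_range] at h0
    rw [this, sum_singleton]
  rw [hconv, hconv, htop] at h
  have hE := E_one_of_sigma hx'pos hn h
  have hmain := main hx'pos hx'mono hn hE
  have hprod : ((∏ i, x i : ℕ) : ℝ) = P (X x') n := by
    rw [P, ← Fin.prod_univ_eq_prod_range]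
    push_cast
    exact prod_congr rfl (fun i _ => by simp [X, hx'1])
  have hw1 : ((∏ i ∈ Icc 1 (n-1), w i : ℚ) : ℝ) = P vr (n-1) := by
    rw [← Ico_succ_right_eq_Icc, Nat.succ_eq_succ, prod_Ico_eq_prod_range]
    push_cast
    refine prod_congr (by simp) (fun i _ => ?_)
    rw [add_comm 1 i, w_eq w w1 w2 hw]
  have hw2 : (w n : ℝ) = vr (n-1) := by
    have := w_eq w w1 w2 hw (n-1)
    rwa [Nat.sub_add_cancel (by omega)] at this
  have : (((∏ i, x i : ℕ) : ℚ) : ℝ) ≤ (((∏ i ∈ Icc 1 (n-1), w i) * (w n - 1) : ℚ) : ℝ) := by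
    rw [Rat.cast_natCast, hprod, Rat.cast_mul, hw1, Rat.cast_sub, hw2, Rat.cast_one]
    exact hmain
  exact_mod_cast this

end Pool.Agent.Q267.MaxProd
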