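import Mathlib

/-!
# Numerical bounds for `∏_{k = 1}^{198} (z - exp(2 π i k² / 397))` at primitive 12th roots of unity
-/

set_option autoImplicit false

namespace Q267.S397

open Complex

/-- The scale of the fixed point arithmetic. -/
def M : ℤ := 10 ^ 20

/-- Rounded multiplication of fixed point complex numbers. -/
def mul (u v : ℤ × ℤ) : ℤ × ℤ :=
  ((u.1 * v.1 - u.2 * v.2) / M, (u.1 * v.2 + u.2 * v.1) / M)

/-- Approximation of `exp(2 π i / 397)`. -/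
def Z1 : ℤ × ℤ := (99987476097953063642, 1582600253148213774)

/-- Approximation of `exp(4 π i / 397)`. -/
def Z2 : ℤ × ℤ := (99949907528774704194, 3164804099685429851)

/-- Approximations of `ζ^{k²}` and `ζ^{2k+1}`. -/
def st : ℕ → (ℤ × ℤ) × (ℤ × ℤ)
  | 0 => ((M, 0), Z1)
  | k + 1 => (mul (st k).1 (st k).2, mul (st k).2 Z2)

/-- `10^36` times an upper (`s = 1`) or lower (`s = -1`) bound for `|z - ζ^{k²}|²`. -/
def U (σ τ s : ℤ) (A : ℤ × ℤ) : ℤ :=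
  2 * 10 ^ 36 - σ * 17320508075688773 * A.1 - τ * 10 ^ 16 * A.2 + s * 10 ^ 26

/-- The product of the bounds. -/
def pr (σ τ s : ℤ) : ℕ → ℤ
  | 0 => 1
  | k + 1 => pr σ τ s k * U σ τ s (st (k + 1)).1

/-- All factors are positive. -/
def allPos (σ τ s : ℤ) : ℕ → Bool
  | 0 => true
  | k + 1 => allPos σ τ s k && decide (0 < U σ τ s (st (k + 1)).1)

set_option maxRecDepth 100000 in
theorem up1 : pr 1 1 1 198 * 10 ^ 8 < 15625 * 10 ^ (36 * 198 - 4) := by decide +kernel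
set_option maxRecDepth 100000 in
theorem up2 : pr 1 (-1) 1 198 * 10 ^ 8 < 15625 * 10 ^ (36 * 198 - 4) := by decide +kernel
set_option maxRecDepth 100000 in
theorem lo1 : 10000 * 10 ^ (36 * 198) < pr (-1) 1 (-1) 198 := by decide +kernel
set_option maxRecDepth 100000 in
theorem lo2 : 10000 * 10 ^ (36 * 198) < pr (-1) (-1) (-1) 198 := by decide +kernel
set_option maxRecDepth 100000 in
theorem pos1 : allPos (-1) 1 (-1) 198 = true := by decide +kernel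
set_option maxRecDepth 100000 in
theorem pos2 : allPos (-1) (-1) (-1) 198 = true := by decide +kernel

/-- The complex number represented by a pair. -/
noncomputable def C (u : ℤ × ℤ) : ℂ := ((u.1 : ℂ) + u.2 * I) / (10 ^ 20 : ℂ)

lemma C_re (u : ℤ × ℤ) : (C u).re = u.1 / 10 ^ 20 := by
  have : C u = ((((u.1 : ℝ) / 10 ^ 20 : ℝ) : ℂ)) + (((u.2 : ℝ) / 10 ^ 20 : ℝ) : ℂ) * I := by
    unfold C; push_cast; ring
  rw [this]; simp [-ofReal_div]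

lemma C_im (u : ℤ × ℤ) : (C u).im = u.2 / 10 ^ 20 := by
  have : C u = ((((u.1 : ℝ) / 10 ^ 20 : ℝ) : ℂ)) + (((u.2 : ℝ) / 10 ^ 20 : ℝ) : ℂ) * I := by
    unfold C; push_cast; ring
  rw [this]; simp [-ofReal_div]

lemma div_err (x : ℤ) : |((x / M : ℤ) : ℝ) / 10 ^ 20 - x / (10 ^ 20 * 10 ^ 20)| ≤ 1 / 10 ^ 20 := by
  have hM : (0 : ℤ) < M := by norm_num [M]
  have h1 := Int.mul_ediv_add_emod x M
  have h2 := Int.emod_nonneg x hM.ne'
  have h3 := Int.emod_lt_of_pos x hM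
  have h1R : (10 ^ 20 : ℝ) * ((x / M : ℤ) : ℝ) + ((x % M : ℤ) : ℝ) = x := by
    have : ((M : ℤ) : ℝ) = 10 ^ 20 := by norm_num [M]
    rw [← this]; exact_mod_cast h1
  have h2R : (0 : ℝ) ≤ ((x % M : ℤ) : ℝ) := by exact_mod_cast h2
  have h3R : ((x % M : ℤ) : ℝ) < 10 ^ 20 := by
    have : ((M : ℤ) : ℝ) = 10 ^ 20 := by norm_num [M]
    rw [← this]; exact_mod_cast h3
  have : ((x / M : ℤ) : ℝ) / 10 ^ 20 - x / (10 ^ 20 * 10 ^ 20) =
      - (((x % M : ℤ) : ℝ) / (10 ^ 20 * 10 ^ 20)) := by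
    rw [← h1R]; field_simp; ring
  rw [this, abs_neg, abs_of_nonneg (by positivity), div_le_div_iff₀ (by positivity) (by positivity)]
  nlinarith

lemma mul_err (u v : ℤ × ℤ) : ‖C (mul u v) - C u * C v‖ ≤ 2 / 10 ^ 20 := by
  refine (norm_le_abs_re_add_abs_im _).trans ?_
  have h1 : (C (mul u v) - C u * C v).re =
      (((u.1 * v.1 - u.2 * v.2) / M : ℤ) : ℝ) / 10 ^ 20 -
        ((u.1 * v.1 - u.2 * v.2 : ℤ) : ℝ) / (10 ^ 20 * 10 ^ 20) := by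
    rw [sub_re, mul_re, C_re, C_re, C_re, C_im, C_im]
    simp only [mul]; push_cast; ring
  have h2 : (C (mul u v) - C u * C v).im =
      (((u.1 * v.2 + u.2 * v.1) / M : ℤ) : ℝ) / 10 ^ 20 -
        ((u.1 * v.2 + u.2 * v.1 : ℤ) : ℝ) / (10 ^ 20 * 10 ^ 20) := by
    rw [sub_im, mul_im, C_im, C_re, C_re, C_im, C_im]
    simp only [mul]; push_cast; ring
  rw [h1, h2]
  have := div_err (u.1 * v.1 - u.2 * v.2)
  have := div_err (u.1 * v.2 + u.2 * v.1)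
  linarith

lemma approx_mul {u v : ℤ × ℤ} {z w : ℂ} {e e' : ℝ} (hu : ‖C u - z‖ ≤ e) (hv : ‖C v - w‖ ≤ e')
    (hz : ‖z‖ = 1) (hw : ‖w‖ = 1) : ‖C (mul u v) - z * w‖ ≤ e + (1 + e) * e' + 2 / 10 ^ 20 := by
  have h1 : C (mul u v) - z * w =
      (C (mul u v) - C u * C v) + ((C u - z) * w + C u * (C v - w)) := by ring
  have h2 : ‖C u‖ ≤ 1 + e := by
    have : C u = z + (C u - z) := by ring
    rw [this]
    refine (norm_add_le _ _).trans ?_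
    rw [hz]; linarith
  have he' : 0 ≤ e' := (norm_nonneg _).trans hv
  rw [h1]
  refine (norm_add_le _ _).trans ?_
  have h3 := mul_err u v
  have h4 : ‖(C u - z) * w + C u * (C v - w)‖ ≤ e + (1 + e) * e' := by
    refine (norm_add_le _ _).trans ?_
    rw [norm_mul, norm_mul, hw, mul_one]
    have : ‖C u‖ * ‖C v - w‖ ≤ (1 + e) * e' :=
      mul_le_mul h2 hv (norm_nonneg _) ((norm_nonneg _).trans h2)
    linarith
  linarith

/-- `exp(2 π i / 397)`. -/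
noncomputable def ζ : ℂ := exp (2 * Real.pi * I / 397)

lemma norm_ζ : ‖ζ‖ = 1 := by
  have : ζ = exp ((2 * Real.pi / 397 : ℝ) * I) := by
    unfold ζ; congr 1; push_cast; ring
  rw [this, norm_exp_ofReal_mul_I]

/-- The rational approximation of the angle. -/
noncomputable def θ0 : ℝ := 2 * 3.14159265358979323846 / 397

lemma exp_close (t a b : ℝ) (e : ℝ) (ht : |t - a| ≤ e) (z : ℂ) (hz : ‖exp (a * I) - z‖ ≤ b) :
    ‖exp (t * I) - z‖ ≤ e + b := by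
  have h1 : exp (t * I) - z = exp (a * I) * (exp (I * ((t - a : ℝ) : ℂ)) - 1) +
      (exp (a * I) - z) := by
    rw [mul_sub, ← Complex.exp_add]
    have : (a : ℂ) * I + I * ((t - a : ℝ) : ℂ) = t * I := by push_cast; ring
    rw [this]; ring
  rw [h1]
  refine (norm_add_le _ _).trans ?_
  rw [norm_mul, norm_exp_ofReal_mul_I, one_mul]
  have := Real.norm_exp_I_mul_ofReal_sub_one_le (x := t - a)
  rw [Real.norm_eq_abs] at this
  linarith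

lemma taylor (a : ℝ) (ha : |a| ≤ 1 / 10) :
    ‖exp (a * I) - ((1 - a ^ 2 / 2 + a ^ 4 / 24 - a ^ 6 / 720 + a ^ 8 / 40320 : ℝ) +
      (a - a ^ 3 / 6 + a ^ 5 / 120 - a ^ 7 / 5040 + a ^ 9 / 362880 : ℝ) * I)‖ ≤
      |a| ^ 10 / 10 ^ 6 := by
  have hn : ‖(a : ℂ) * I‖ = |a| := by simp
  have h := Complex.exp_bound (x := (a : ℂ) * I) (by rw [hn]; linarith) (n := 10) (by norm_num)
  rw [hn] at h
  have hs : ∑ m ∈ Finset.range 10, ((a : ℂ) * I) ^ m / (m.factorial : ℂ) =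
      ((1 - a ^ 2 / 2 + a ^ 4 / 24 - a ^ 6 / 720 + a ^ 8 / 40320 : ℝ) +
      (a - a ^ 3 / 6 + a ^ 5 / 120 - a ^ 7 / 5040 + a ^ 9 / 362880 : ℝ) * I) := by
    simp only [Finset.sum_range_succ, Finset.sum_range_zero, mul_pow]
    have i2 : I ^ 2 = -1 := I_sq
    have i3 : I ^ 3 = -I := by rw [pow_succ, i2]; ring
    have i4 : I ^ 4 = 1 := by rw [pow_succ, i3]; ring_nf; rw [i2]; ring
    have i5 : I ^ 5 = I := by rw [pow_succ, i4]; ring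
    have i6 : I ^ 6 = -1 := by rw [pow_succ, i5, ← sq, i2]
    have i7 : I ^ 7 = -I := by rw [pow_succ, i6]; ring
    have i8 : I ^ 8 = 1 := by rw [pow_succ, i7]; ring_nf; rw [i2]; ring
    have i9 : I ^ 9 = I := by rw [pow_succ, i8]; ring
    rw [i2, i3, i4, i5, i6, i7, i8, i9]
    simp only [Nat.factorial]
    push_cast
    ring
  rw [hs] at h
  refine h.trans ?_
  have h10 : (0 : ℝ) ≤ |a| ^ 10 := by positivity
  have : ((Nat.succ 10 : ℕ) : ℝ) * (((Nat.factorial 10 : ℕ) : ℝ) * ((10 : ℕ) : ℝ))⁻¹ ≤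
      1 / 10 ^ 6 := by
    norm_num [Nat.factorial]
  calc |a| ^ 10 * (((Nat.succ 10 : ℕ) : ℝ) * (((Nat.factorial 10 : ℕ) : ℝ) * ((10 : ℕ) : ℝ))⁻¹)
      ≤ |a| ^ 10 * (1 / 10 ^ 6) := mul_le_mul_of_nonneg_left this h10
    _ = |a| ^ 10 / 10 ^ 6 := by ring

lemma Z1_err : ‖C Z1 - ζ‖ ≤ 1 / 10 ^ 18 := by
  have hζ : ζ = exp ((2 * Real.pi / 397 : ℝ) * I) := by
    unfold ζ; congr 1; push_cast; ring
  rw [norm_sub_rev, hζ]
  have h1 : |2 * Real.pi / 397 - θ0| ≤ 1 / 10 ^ 20 := by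
    have h2 := Real.pi_gt_d20
    have h3 := Real.pi_lt_d20
    unfold θ0
    rw [abs_le]; constructor <;> linarith
  have h4 : ‖exp (θ0 * I) - C Z1‖ ≤ 1 / 10 ^ 19 := by
    have h5 := taylor θ0 (by unfold θ0; rw [abs_of_nonneg (by norm_num)]; norm_num)
    have h6 : ‖((1 - θ0 ^ 2 / 2 + θ0 ^ 4 / 24 - θ0 ^ 6 / 720 + θ0 ^ 8 / 40320 : ℝ) +
      (θ0 - θ0 ^ 3 / 6 + θ0 ^ 5 / 120 - θ0 ^ 7 / 5040 + θ0 ^ 9 / 362880 : ℝ) * I) - C Z1‖ ≤
        2 / 10 ^ 20 := by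
      refine (norm_le_abs_re_add_abs_im _).trans ?_
      rw [sub_re, sub_im, C_re, C_im]
      simp only [add_re, add_im, ofReal_re, ofReal_im, mul_re, mul_im, I_re, I_im, mul_zero,
        mul_one, sub_zero, zero_add, add_zero]
      have e1 : |1 - θ0 ^ 2 / 2 + θ0 ^ 4 / 24 - θ0 ^ 6 / 720 + θ0 ^ 8 / 40320 -
          (Z1.1 : ℝ) / 10 ^ 20| ≤ 1 / 10 ^ 20 := by
        unfold θ0 Z1; rw [abs_le]; constructor <;> norm_num
      have e2 : |θ0 - θ0 ^ 3 / 6 + θ0 ^ 5 / 120 - θ0 ^ 7 / 5040 + θ0 ^ 9 / 362880 -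
          (Z1.2 : ℝ) / 10 ^ 20| ≤ 1 / 10 ^ 20 := by
        unfold θ0 Z1; rw [abs_le]; constructor <;> norm_num
      linarith
    have h7 : |θ0| ^ 10 / 10 ^ 6 ≤ 1 / 10 ^ 20 := by
      unfold θ0; rw [abs_of_nonneg (by norm_num)]; norm_num
    have h8 := norm_sub_le_norm_sub_add_norm_sub (exp (θ0 * I))
      ((1 - θ0 ^ 2 / 2 + θ0 ^ 4 / 24 - θ0 ^ 6 / 720 + θ0 ^ 8 / 40320 : ℝ) +
      (θ0 - θ0 ^ 3 / 6 + θ0 ^ 5 / 120 - θ0 ^ 7 / 5040 + θ0 ^ 9 / 362880 : ℝ) * I) (C Z1)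
    refine h8.trans ?_
    linarith
  have := exp_close _ _ _ _ h1 _ h4
  refine this.trans ?_
  norm_num

lemma Z2_err : ‖C Z2 - ζ ^ 2‖ ≤ 1 / 10 ^ 17 := by
  have h1 := approx_mul Z1_err Z1_err norm_ζ norm_ζ
  have h2 : ‖C Z2 - C (mul Z1 Z1)‖ ≤ 4 / 10 ^ 20 := by
    refine (norm_le_abs_re_add_abs_im _).trans ?_
    rw [sub_re, sub_im, C_re, C_re, C_im, C_im]
    have e : mul Z1 Z1 = ((99949907528774704193, 3164804099685429849) : ℤ × ℤ) := by decide +kernel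
    rw [e]
    simp only [Z2]
    have e1 : |((99949907528774704194 : ℤ) : ℝ) / 10 ^ 20 - ((99949907528774704193 : ℤ) : ℝ) / 10 ^ 20| ≤
        2 / 10 ^ 20 := by
      rw [abs_le]; constructor <;> norm_num
    have e2 : |((3164804099685429851 : ℤ) : ℝ) / 10 ^ 20 - ((3164804099685429849 : ℤ) : ℝ) / 10 ^ 20| ≤
        2 / 10 ^ 20 := by
      rw [abs_le]; constructor <;> norm_num
    linarith
  have h3 : C Z2 - ζ ^ 2 = (C Z2 - C (mul Z1 Z1)) + (C (mul Z1 Z1) - ζ * ζ) := by ring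
  rw [h3]
  refine (norm_add_le _ _).trans ?_
  have h4 : (1 : ℝ) / 10 ^ 18 + (1 + 1 / 10 ^ 18) * (1 / 10 ^ 18) + 2 / 10 ^ 20 ≤
      3 / 10 ^ 18 := by norm_num
  have h5 : (4 : ℝ) / 10 ^ 20 + 3 / 10 ^ 18 ≤ 1 / 10 ^ 17 := by norm_num
  linarith

lemma st_err (k : ℕ) (hk : k ≤ 198) :
    ‖C (st k).1 - ζ ^ (k ^ 2)‖ ≤ 2 * (k : ℝ) ^ 2 * (1 / 10 ^ 16) ∧
    ‖C (st k).2 - ζ ^ (2 * k + 1)‖ ≤ (2 * (k : ℝ) + 1) * (1 / 10 ^ 16) := by
  induction k with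
  | zero =>
    constructor
    · have : C (st 0).1 = 1 := by
        unfold C st M; norm_num
      rw [this]; simp
    · have h := Z1_err
      have h2 : (1 : ℝ) / 10 ^ 18 ≤ 1 / 10 ^ 16 := by norm_num
      simpa [st] using h.trans h2
  | succ k ih =>
    obtain ⟨ih1, ih2⟩ := ih (by omega)
    have hkR : (k : ℝ) ≤ 198 := by exact_mod_cast (by omega : k ≤ 198)
    have hk0 : (0 : ℝ) ≤ k := by positivity
    have n1 : ‖ζ ^ (k ^ 2)‖ = 1 := by rw [norm_pow, norm_ζ, one_pow]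
    have n2 : ‖ζ ^ (2 * k + 1)‖ = 1 := by rw [norm_pow, norm_ζ, one_pow]
    have n3 : ‖ζ ^ 2‖ = 1 := by rw [norm_pow, norm_ζ, one_pow]
    constructor
    · have h := approx_mul ih1 ih2 n1 n2
      have e1 : ζ ^ ((k + 1) ^ 2) = ζ ^ (k ^ 2) * ζ ^ (2 * k + 1) := by
        rw [← pow_add]; congr 1; ring
      rw [e1]
      refine (show C (st (k + 1)).1 = C (mul (st k).1 (st k).2) from rfl) ▸ h.trans ?_
      push_cast
      have hk2 : (k : ℝ) ^ 2 ≤ 198 ^ 2 := by nlinarith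
      have : 2 * (k : ℝ) ^ 2 * (1 / 10 ^ 16) * ((2 * (k : ℝ) + 1) * (1 / 10 ^ 16)) ≤
          2 * 198 ^ 2 * (1 / 10 ^ 16) * ((2 * 198 + 1) * (1 / 10 ^ 16)) := by
        gcongr
      have h3 : 2 * (198 : ℝ) ^ 2 * (1 / 10 ^ 16) * ((2 * 198 + 1) * (1 / 10 ^ 16)) +
          2 / 10 ^ 20 ≤ 1 / 10 ^ 16 := by norm_num
      nlinarith
    · have h := approx_mul ih2 Z2_err n2 n3
      have e1 : ζ ^ (2 * (k + 1) + 1) = ζ ^ (2 * k + 1) * ζ ^ 2 := by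
        rw [← pow_add]; congr 1
      rw [e1]
      refine (show C (st (k + 1)).2 = C (mul (st k).2 Z2) from rfl) ▸ h.trans ?_
      push_cast
      have : (1 + (2 * (k : ℝ) + 1) * (1 / 10 ^ 16)) * (1 / 10 ^ 17) ≤
          (1 + (2 * 198 + 1) * (1 / 10 ^ 16)) * (1 / 10 ^ 17) := by gcongr
      have h3 : (1 + (2 * (198 : ℝ) + 1) * (1 / 10 ^ 16)) * (1 / 10 ^ 17) + 2 / 10 ^ 20 ≤
          2 * (1 / 10 ^ 16) := by norm_num
      nlinarith

lemma sqrt3_bounds : (1.7320508075688772 : ℝ) < √3 ∧ √3 < (1.7320508075688774 : ℝ) := by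
  constructor
  · apply Real.lt_sqrt_of_sq_lt; norm_num
  · rw [Real.sqrt_lt' (by norm_num)]; norm_num

lemma factor (σ τ : ℝ) (hσ : |σ| = 1) (hτ : |τ| = 1) (w : ℂ) (hw : ‖w‖ = 1) (A : ℤ × ℤ)
    (h : ‖C A - w‖ ≤ 1 / 10 ^ 11) :
    |‖((σ * √3 / 2 : ℝ) + (τ / 2 : ℝ) * I) - w‖ ^ 2 -
      (2 - σ * 1.7320508075688773 * (A.1 / 10 ^ 20) - τ * (A.2 / 10 ^ 20))| ≤ 1 / 10 ^ 10 := by
  have hw2 : w.re * w.re + w.im * w.im = 1 := by
    have := Complex.normSq_eq_norm_sq w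
    rw [hw, Complex.normSq_apply] at this
    linarith
  have hσ2 : σ ^ 2 = 1 := by rw [← sq_abs, hσ]; norm_num
  have hτ2 : τ ^ 2 = 1 := by rw [← sq_abs, hτ]; norm_num
  have h3 : √3 ^ 2 = (3 : ℝ) := Real.sq_sqrt (by norm_num)
  have e1 : ‖((σ * √3 / 2 : ℝ) + (τ / 2 : ℝ) * I) - w‖ ^ 2 = 2 - σ * √3 * w.re - τ * w.im := by
    rw [Complex.sq_norm, Complex.normSq_apply]
    simp only [sub_re, sub_im, add_re, add_im, ofReal_re, ofReal_im, mul_re, mul_im, I_re, I_im,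
      mul_zero, mul_one, sub_zero, zero_add, add_zero]
    linear_combination (3 / 4) * hσ2 + (1 / 4) * hτ2 + hw2 + (σ ^ 2 / 4) * h3
  have hre : |(A.1 : ℝ) / 10 ^ 20 - w.re| ≤ 1 / 10 ^ 11 := by
    have := (abs_re_le_norm (C A - w)).trans h
    rwa [sub_re, C_re] at this
  have him : |(A.2 : ℝ) / 10 ^ 20 - w.im| ≤ 1 / 10 ^ 11 := by
    have := (abs_im_le_norm (C A - w)).trans h
    rwa [sub_im, C_im] at this
  have hwre : |w.re| ≤ 1 := by rw [← hw]; exact abs_re_le_norm w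
  obtain ⟨s1, s2⟩ := sqrt3_bounds
  rw [e1]
  have e2 : 2 - σ * √3 * w.re - τ * w.im -
      (2 - σ * 1.7320508075688773 * (A.1 / 10 ^ 20) - τ * (A.2 / 10 ^ 20)) =
      σ * (1.7320508075688773 * ((A.1 : ℝ) / 10 ^ 20 - w.re)) +
      (τ * ((A.2 : ℝ) / 10 ^ 20 - w.im) + σ * ((1.7320508075688773 - √3) * w.re)) := by ring
  rw [e2]
  have b1 : |σ * (1.7320508075688773 * ((A.1 : ℝ) / 10 ^ 20 - w.re))| ≤ 2 * (1 / 10 ^ 11) := by
    rw [abs_mul, hσ, one_mul, abs_mul]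
    have : |(1.7320508075688773 : ℝ)| ≤ 2 := by rw [abs_of_nonneg (by norm_num)]; norm_num
    exact mul_le_mul this hre (abs_nonneg _) (by norm_num)
  have b2 : |τ * ((A.2 : ℝ) / 10 ^ 20 - w.im)| ≤ 1 / 10 ^ 11 := by
    rw [abs_mul, hτ, one_mul]; exact him
  have b3 : |σ * ((1.7320508075688773 - √3) * w.re)| ≤ 1 / 10 ^ 15 := by
    rw [abs_mul, hσ, one_mul, abs_mul]
    have : |(1.7320508075688773 : ℝ) - √3| ≤ 1 / 10 ^ 15 := by
      rw [abs_le]; constructor <;> linarith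
    calc |(1.7320508075688773 : ℝ) - √3| * |w.re| ≤ 1 / 10 ^ 15 * 1 :=
          mul_le_mul this hwre (abs_nonneg _) (by norm_num)
      _ = 1 / 10 ^ 15 := by ring
  refine (abs_add_le _ _).trans ?_
  have b4 := abs_add_le (τ * ((A.2 : ℝ) / 10 ^ 20 - w.im))
    (σ * ((1.7320508075688773 - √3) * w.re))
  have : (2 : ℝ) * (1 / 10 ^ 11) + (1 / 10 ^ 11 + 1 / 10 ^ 15) ≤ 1 / 10 ^ 10 := by norm_num
  linarith

lemma st_err' (k : ℕ) (hk : k ≤ 198) : ‖C (st k).1 - ζ ^ (k ^ 2)‖ ≤ 1 / 10 ^ 11 := by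
  refine (st_err k hk).1.trans ?_
  have hkR : (k : ℝ) ≤ 198 := by exact_mod_cast hk
  have hk0 : (0 : ℝ) ≤ k := by positivity
  have hk2 : (k : ℝ) ^ 2 ≤ 198 ^ 2 := by nlinarith
  have : 2 * (198 : ℝ) ^ 2 * (1 / 10 ^ 16) ≤ 1 / 10 ^ 11 := by norm_num
  nlinarith

/-- The point `σ √3 / 2 + τ i / 2`. -/
noncomputable def pt (σ τ : ℤ) : ℂ := ((((σ : ℝ) * √3 / 2 : ℝ) : ℂ) + (((τ : ℝ) / 2 : ℝ) : ℂ) * I)

lemma upper (σ τ : ℤ) (hσ : |(σ : ℝ)| = 1) (hτ : |(τ : ℝ)| = 1) (k : ℕ) (hk : k ≤ 198) :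
    ∏ j ∈ Finset.range k, ‖pt σ τ - ζ ^ ((j + 1) ^ 2)‖ ^ 2 ≤ (pr σ τ 1 k : ℝ) / 10 ^ (36 * k) := by
  induction k with
  | zero => simp [pr]
  | succ k ih =>
    rw [Finset.prod_range_succ]
    have h1 := ih (by omega)
    have h2 := factor σ τ hσ hτ (ζ ^ ((k + 1) ^ 2)) (by rw [norm_pow, norm_ζ, one_pow])
      (st (k + 1)).1 (st_err' (k + 1) hk)
    have h3 : ‖pt σ τ - ζ ^ ((k + 1) ^ 2)‖ ^ 2 ≤ (U σ τ 1 (st (k + 1)).1 : ℝ) / 10 ^ 36 := by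
      have h4 := (abs_le.1 h2).2
      have e : (U σ τ 1 (st (k + 1)).1 : ℝ) / 10 ^ 36 =
          (2 - (σ : ℝ) * 1.7320508075688773 * (((st (k + 1)).1.1 : ℤ) / 10 ^ 20) -
            (τ : ℝ) * (((st (k + 1)).1.2 : ℤ) / 10 ^ 20)) + 1 / 10 ^ 10 := by
        unfold U; push_cast; ring
      rw [e]
      unfold pt
      linarith
    have h5 : (pr σ τ 1 (k + 1) : ℝ) / 10 ^ (36 * (k + 1)) =
        (pr σ τ 1 k : ℝ) / 10 ^ (36 * k) * ((U σ τ 1 (st (k + 1)).1 : ℝ) / 10 ^ 36) := by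
      have : pr σ τ 1 (k + 1) = pr σ τ 1 k * U σ τ 1 (st (k + 1)).1 := rfl
      rw [this]; push_cast
      have e2 : (10 : ℝ) ^ (36 * (k + 1)) = 10 ^ (36 * k) * 10 ^ 36 := by
        rw [← pow_add]; congr 1
      rw [e2, div_mul_div_comm]
    rw [h5]
    exact mul_le_mul h1 h3 (by positivity) ((Finset.prod_nonneg fun _ _ => by positivity).trans h1)

lemma lower (σ τ : ℤ) (hσ : |(σ : ℝ)| = 1) (hτ : |(τ : ℝ)| = 1) (k : ℕ) (hk : k ≤ 198)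
    (hpos : allPos σ τ (-1) k = true) : 0 < (pr σ τ (-1) k : ℝ) ∧
    (pr σ τ (-1) k : ℝ) / 10 ^ (36 * k) ≤
      ∏ j ∈ Finset.range k, ‖pt σ τ - ζ ^ ((j + 1) ^ 2)‖ ^ 2 := by
  induction k with
  | zero => simp [pr]
  | succ k ih =>
    rw [Finset.prod_range_succ]
    have hp : allPos σ τ (-1) k = true ∧ 0 < U σ τ (-1) (st (k + 1)).1 := by
      have : (allPos σ τ (-1) k && decide (0 < U σ τ (-1) (st (k + 1)).1)) = true := hpos
      simpa using this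
    obtain ⟨h0, h1⟩ := ih (by omega) hp.1
    have hU : (0 : ℝ) < (U σ τ (-1) (st (k + 1)).1 : ℝ) := by exact_mod_cast hp.2
    have h2 := factor σ τ hσ hτ (ζ ^ ((k + 1) ^ 2)) (by rw [norm_pow, norm_ζ, one_pow])
      (st (k + 1)).1 (st_err' (k + 1) hk)
    have h3 : (U σ τ (-1) (st (k + 1)).1 : ℝ) / 10 ^ 36 ≤ ‖pt σ τ - ζ ^ ((k + 1) ^ 2)‖ ^ 2 := by
      have h4 := (abs_le.1 h2).1
      have e : (U σ τ (-1) (st (k + 1)).1 : ℝ) / 10 ^ 36 =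
          (2 - (σ : ℝ) * 1.7320508075688773 * (((st (k + 1)).1.1 : ℤ) / 10 ^ 20) -
            (τ : ℝ) * (((st (k + 1)).1.2 : ℤ) / 10 ^ 20)) - 1 / 10 ^ 10 := by
        unfold U; push_cast; ring
      rw [e]
      unfold pt
      linarith
    have hpr : (pr σ τ (-1) (k + 1) : ℝ) = pr σ τ (-1) k * U σ τ (-1) (st (k + 1)).1 := by
      have : pr σ τ (-1) (k + 1) = pr σ τ (-1) k * U σ τ (-1) (st (k + 1)).1 := rfl
      rw [this]; push_cast; rfl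
    have h5 : (pr σ τ (-1) (k + 1) : ℝ) / 10 ^ (36 * (k + 1)) =
        (pr σ τ (-1) k : ℝ) / 10 ^ (36 * k) * ((U σ τ (-1) (st (k + 1)).1 : ℝ) / 10 ^ 36) := by
      rw [hpr]
      have e2 : (10 : ℝ) ^ (36 * (k + 1)) = 10 ^ (36 * k) * 10 ^ 36 := by
        rw [← pow_add]; congr 1
      rw [e2, div_mul_div_comm]
    refine ⟨by rw [hpr]; positivity, ?_⟩
    rw [h5]
    exact mul_le_mul h1 h3 (by positivity) (Finset.prod_nonneg fun _ _ => by positivity)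

/-- The product over the quadratic residues modulo `397`. -/
noncomputable def P (z : ℂ) : ℂ := ∏ j ∈ Finset.range 198, (z - ζ ^ ((j + 1) ^ 2))

lemma norm_P (z : ℂ) : ‖P z‖ ^ 2 = ∏ j ∈ Finset.range 198, ‖z - ζ ^ ((j + 1) ^ 2)‖ ^ 2 := by
  unfold P; rw [norm_prod, Finset.prod_pow]

theorem small (τ : ℤ) (hτ : τ = 1 ∨ τ = -1) : ‖P (pt 1 τ)‖ < 0.0125 := by
  have key : ((pr 1 τ 1 198 : ℤ) : ℝ) / 10 ^ (36 * 198) < 0.0125 ^ 2 := by
    have h : (pr 1 τ 1 198 : ℤ) * 10 ^ 8 < 15625 * 10 ^ (36 * 198 - 4) := by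
      rcases hτ with rfl | rfl
      · exact up1
      · exact up2
    have hR : ((pr 1 τ 1 198 : ℤ) : ℝ) * 10 ^ 8 < 15625 * 10 ^ (36 * 198 - 4) := by exact_mod_cast h
    rw [div_lt_iff₀ (by positivity)]
    have e : (10 : ℝ) ^ (36 * 198) = 10 ^ (36 * 198 - 4) * 10 ^ 4 := by
      rw [← pow_add]
    rw [e]
    have hX : (0 : ℝ) < 10 ^ (36 * 198 - 4) := by positivity
    generalize (10 : ℝ) ^ (36 * 198 - 4) = X at hX hR ⊢
    norm_num at hR ⊢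
    linarith
  have hb : ‖P (pt 1 τ)‖ ^ 2 < 0.0125 ^ 2 := by
    rw [norm_P]
    refine (upper 1 τ (by norm_num) ?_ 198 le_rfl).trans_lt key
    rcases hτ with rfl | rfl <;> norm_num
  exact lt_of_pow_lt_pow_left₀ 2 (by norm_num) hb

theorem large (τ : ℤ) (hτ : τ = 1 ∨ τ = -1) : 100 < ‖P (pt (-1) τ)‖ := by
  have key : (100 : ℝ) ^ 2 < ((pr (-1) τ (-1) 198 : ℤ) : ℝ) / 10 ^ (36 * 198) := by
    have h : (10000 : ℤ) * 10 ^ (36 * 198) < pr (-1) τ (-1) 198 := by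
      rcases hτ with rfl | rfl
      · exact lo1
      · exact lo2
    have hR : (10000 : ℝ) * 10 ^ (36 * 198) < ((pr (-1) τ (-1) 198 : ℤ) : ℝ) := by exact_mod_cast h
    rw [lt_div_iff₀ (by positivity)]
    refine lt_of_eq_of_lt ?_ hR
    norm_num
  have hb : (100 : ℝ) ^ 2 < ‖P (pt (-1) τ)‖ ^ 2 := by
    rw [norm_P]
    refine key.trans_le (lower (-1) τ (by norm_num) ?_ 198 le_rfl ?_).2
    · rcases hτ with rfl | rfl <;> norm_num
    · rcases hτ with rfl | rfl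
      · exact pos1
      · exact pos2
  exact lt_of_pow_lt_pow_left₀ 2 (norm_nonneg _) hb

end Q267.S397
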